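import Mathlib

set_option autoImplicit false

/-!
# Algebraic computation trees over the reals
-/

namespace Pool.Agent.H558R2

/-- The four arithmetic operations. -/
inductive Op : Type
  | add
  | sub
  | mul
  | div
  deriving DecidableEq

/-- The value of an arithmetic operation. -/
noncomputable def Op.eval : Op → ℝ → ℝ → ℝ
  | .add, a, b => a + b
  | .sub, a, b => a - b
  | .mul, a, b => a * b
  | .div, a, b => a / b

/-- An operand of an elementary step: an input number, one of the constants `0` and `1`, or the
result of the `j`-th arithmetic operation performed so far. -/
inductive Operand (κ : Type) : Type
  | input (k : κ)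
  | zero
  | one
  | result (j : ℕ)

/-- The value of an operand, on input `x`, if `res` lists the results computed so far. -/
def Operand.value {κ : Type} (x : κ → ℝ) (res : List ℝ) : Operand κ → Option ℝ
  | .input k => some (x k)
  | .zero => some 0
  | .one => some 1
  | .result j => res[j]?

/-- Algebraic computation trees on inputs indexed by `κ`: every node stops with an answer, or
performs one arithmetic operation, or compares two numbers and branches. -/
inductive CompTree (κ : Type) : Type
  | answer (a : Bool)
  | arith (o : Op) (u v : Operand κ) (next : CompTree κ)
  | compare (u v : Operand κ) (lt eq gt : CompTree κ)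

/-- `T.run x res` executes the tree `T` on input `x`, if `res` lists the results computed so far.
It returns the answer, the list of all numbers computed, and the number of elementary steps
(arithmetic operations and comparisons) performed by `T`. It fails (value `none`) at a division by
zero and when an operand does not exist. -/
noncomputable def CompTree.run {κ : Type} (x : κ → ℝ) : CompTree κ → List ℝ → Option (Bool × List ℝ × ℕ)
  | .answer a, res => some (a, res, 0)
  | .arith o u v t, res =>
    match u.value x res, v.value x res with
    | some a, some b =>
      if o = Op.div ∧ b = 0 then none
      else (t.run x (res ++ [o.eval a b])).map fun r => (r.1, r.2.1, r.2.2 + 1)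
    | _, _ => none
  | .compare u v tl te tg, res =>
    match u.value x res, v.value x res with
    | some a, some b =>
      (if a < b then tl.run x res else if a = b then te.run x res else tg.run x res).map
        fun r => (r.1, r.2.1, r.2.2 + 1)
    | _, _ => none

/-- The binary encoding length of a rational number. -/
def bitLength (q : ℚ) : ℕ := 1 + Nat.size q.num.natAbs + Nat.size q.den

/-- The total binary encoding length of a rational instance `(A, b)`. -/
def inputLength {m n : ℕ} (A : Matrix (Fin m) (Fin n) ℚ) (b : Fin m → ℚ) : ℕ :=
  ∑ i, ∑ j, bitLength (A i j) + ∑ i, bitLength (b i)

/-- The input of the linear feasibility problem as a family of real numbers. -/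
def lpInput {m n : ℕ} (A : Fin m → Fin n → ℝ) (b : Fin m → ℝ) : (Fin m × Fin n) ⊕ Fin m → ℝ
  | .inl p => A p.1 p.2
  | .inr i => b i

end Pool.Agent.H558R2
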