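import Pool.Agent.H558R2.Halving

set_option autoImplicit false

/-!
# Local certificates

A sign assignment for the maximal minors of an `m × (L + 1)` matrix which is realizable on every
set of at most `m + L + 3` minors has a certificate of feasibility or of infeasibility for the
system `W y = q`, `y ≥ 0`, where `q` is the last column (index `none`).
The proof follows Bland's least-index argument.
-/

namespace Pool.Agent.H558R2

open Matrix

variable {m L : ℕ}

/-- The maximal minor of `w` with the list of columns `β`. -/
noncomputable def dd (w : Matrix (Fin m) (Option (Fin L)) ℝ) (β : Fin m → Option (Fin L)) : ℝ :=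
  (Matrix.of fun i j => w i (β j)).det

lemma dd_update (w : Matrix (Fin m) (Option (Fin L)) ℝ) (β : Fin m → Option (Fin L)) (i : Fin m)
    (x : Option (Fin L)) :
    dd w (Function.update β i x) =
      cramer (Matrix.of fun r j => w r (β j)) (fun r => w r x) i := by
  rw [cramer_apply]
  unfold dd
  congr 1
  ext r j
  by_cases h : j = i
  · subst h
    simp
  · simp [h]

lemma sum_dd (w : Matrix (Fin m) (Option (Fin L)) ℝ) (β : Fin m → Option (Fin L))
    (x : Option (Fin L)) (r : Fin m) :
    dd w β * w r x = ∑ j, dd w (Function.update β j x) * w r (β j) := by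
  have h := mulVec_cramer (Matrix.of fun r j => w r (β j)) (fun r => w r x)
  have h2 := congrFun h r
  simp only [mulVec, dotProduct, Pi.smul_apply, smul_eq_mul, of_apply] at h2
  unfold dd at *
  rw [← h2]
  refine Finset.sum_congr rfl fun j _ => ?_
  rw [← dd_update]
  unfold dd
  ring

/-- A Grassmann–Plücker relation. -/
lemma gp (w : Matrix (Fin m) (Option (Fin L)) ℝ) (β γ : Fin m → Option (Fin L)) (i : Fin m)
    (x : Option (Fin L)) :
    dd w β * dd w (Function.update γ i x) =
      ∑ j, dd w (Function.update γ i (β j)) * dd w (Function.update β j x) := by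
  have h : (dd w β) • (fun r => w r x) =
      ∑ j, dd w (Function.update β j x) • (fun r => w r (β j)) := by
    ext r
    simp only [Pi.smul_apply, smul_eq_mul, Finset.sum_apply]
    exact sum_dd w β x r
  have h2 := congrArg (fun v => cramer (Matrix.of fun r j => w r (γ j)) v i) h
  simp only [map_smul, map_sum, Pi.smul_apply, Finset.sum_apply, smul_eq_mul] at h2
  rw [dd_update, h2]
  refine Finset.sum_congr rfl fun j _ => ?_
  rw [dd_update w γ i (β j)]
  ring

lemma dd_eq_zero (w : Matrix (Fin m) (Option (Fin L)) ℝ) (β : Fin m → Option (Fin L))
    {i j : Fin m} (hij : i ≠ j) (h : β i = β j) : dd w β = 0 := by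
  unfold dd
  exact det_zero_of_column_eq hij (fun k => by simp [h])

/-- The product of the signs of two minors: the sign of an entry of the tableau of `β`. -/
def tau (σ : (Fin m → Option (Fin L)) → SignType) (β : Fin m → Fin L) (i : Fin m)
    (x : Option (Fin L)) : SignType :=
  σ (Function.update (fun j => some (β j)) i x) * σ (fun j => some (β j))

/-- All basic variables with index less than `t` are nonnegative. -/
def FeasTo (σ : (Fin m → Option (Fin L)) → SignType) (t : ℕ) (β : Fin m → Fin L) : Prop :=
  ∀ j, (β j : ℕ) < t → tau σ β j none ≠ -1

/-- Some row proves infeasibility as far as the variables with index less than `t` are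
concerned. -/
def InfTo (σ : (Fin m → Option (Fin L)) → SignType) (t : ℕ) (β : Fin m → Fin L) : Prop :=
  ∃ i, (β i : ℕ) < t ∧ tau σ β i none = -1 ∧
    ∀ k : Fin L, (k : ℕ) < t → tau σ β i (some k) ≠ -1

section

variable {α : Type*} (w : α → Matrix (Fin m) (Option (Fin L)) ℝ)

/-- The sign pattern of all maximal minors. -/
noncomputable def chi (a : α) (q : Fin m → Option (Fin L)) : SignType := SignType.sign (dd (w a) q)

variable {w} {σ : (Fin m → Option (Fin L)) → SignType} {s : ℕ}

/-- Two tableaux that cannot both occur: the heart of Bland's argument. -/
lemma no_pair (hs : m + L + 3 ≤ s) (hloc : LocReal (chi w) s σ) (t : Fin L)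
    (β γ : Fin m → Fin L) (hβ : σ (fun j => some (β j)) ≠ 0) (hγ : σ (fun j => some (γ j)) ≠ 0)
    (j0 : Fin m) (hj0 : β j0 = t) (h1 : tau σ β j0 none = -1) (hfeas : FeasTo σ t β)
    (i : Fin m) (hi : γ i < t) (h2 : tau σ γ i none = -1) (h3 : tau σ γ i (some t) = -1)
    (h4 : ∀ k : Fin L, k < t → tau σ γ i (some k) ≠ -1)
    (hsame : ∀ k : Fin L, t < k → (∃ j, β j = k) → ∃ l, γ l = k) : False := by
  classical
  set eβ : Fin m → Option (Fin L) := fun j => some (β j) with heβ
  set eγ : Fin m → Option (Fin L) := fun j => some (γ j) with heγ
  set D : Finset (Fin m → Option (Fin L)) :=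
    (({eβ} ∪ Finset.univ.image (fun j => Function.update eβ j none)) ∪ {eγ}) ∪
      ((Finset.univ.image (fun k : Fin L => Function.update eγ i (some k))) ∪
        {Function.update eγ i none}) with hD
  have hDcard : D.card ≤ s := by
    have c1 : (Finset.univ.image (fun j => Function.update eβ j (none : Option (Fin L)))).card
        ≤ m := Finset.card_image_le.trans (by simp)
    have c2 : (Finset.univ.image (fun k : Fin L => Function.update eγ i (some k))).card ≤ L :=
      Finset.card_image_le.trans (by simp)
    have c3 := Finset.card_union_le
      (({eβ} ∪ Finset.univ.image (fun j => Function.update eβ j (none : Option (Fin L)))) ∪ {eγ})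
      ((Finset.univ.image (fun k : Fin L => Function.update eγ i (some k))) ∪
        {Function.update eγ i none})
    have c4 := Finset.card_union_le
      ({eβ} ∪ Finset.univ.image (fun j => Function.update eβ j (none : Option (Fin L)))) {eγ}
    have c5 := Finset.card_union_le {eβ}
      (Finset.univ.image (fun j => Function.update eβ j (none : Option (Fin L))))
    have c6 := Finset.card_union_le
      (Finset.univ.image (fun k : Fin L => Function.update eγ i (some k)))
      {Function.update eγ i none}
    simp only [Finset.card_singleton] at c3 c4 c5 c6
    rw [hD]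
    omega
  obtain ⟨a, ha⟩ := hloc D hDcard
  have aβ : SignType.sign (dd (w a) eβ) = σ eβ := ha eβ (by simp [hD])
  have aγ : SignType.sign (dd (w a) eγ) = σ eγ := ha eγ (by simp [hD])
  have aβn : ∀ j, SignType.sign (dd (w a) (Function.update eβ j none)) =
      σ (Function.update eβ j none) := fun j => ha _ (by simp [hD])
  have aγn : SignType.sign (dd (w a) (Function.update eγ i none)) =
      σ (Function.update eγ i none) := ha _ (by simp [hD])
  have aγk : ∀ k : Fin L, SignType.sign (dd (w a) (Function.update eγ i (some k))) =
      σ (Function.update eγ i (some k)) := fun k => ha _ (by simp [hD])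
  have tβ : ∀ j, tau σ β j none =
      SignType.sign (dd (w a) (Function.update eβ j none) * dd (w a) eβ) := by
    intro j
    rw [sign_mul, aβn, aβ]
    rfl
  have tγn : tau σ γ i none =
      SignType.sign (dd (w a) (Function.update eγ i none) * dd (w a) eγ) := by
    rw [sign_mul, aγn, aγ]
    rfl
  have tγk : ∀ k, tau σ γ i (some k) =
      SignType.sign (dd (w a) (Function.update eγ i (some k)) * dd (w a) eγ) := by
    intro k
    rw [sign_mul, aγk, aγ]
    rfl
  have g := gp (w a) eβ eγ i none
  -- multiply by the signs
  have key : (dd (w a) eβ * dd (w a) eβ) * (dd (w a) (Function.update eγ i none) * dd (w a) eγ) =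
      ∑ j, (dd (w a) (Function.update eγ i (eβ j)) * dd (w a) eγ) *
        (dd (w a) (Function.update eβ j none) * dd (w a) eβ) := by
    calc (dd (w a) eβ * dd (w a) eβ) * (dd (w a) (Function.update eγ i none) * dd (w a) eγ)
        = (dd (w a) eβ * dd (w a) (Function.update eγ i none)) * (dd (w a) eβ * dd (w a) eγ) := by
          ring
      _ = _ := by
          rw [g, Finset.sum_mul]
          refine Finset.sum_congr rfl fun j _ => ?_
          ring
  have hβ0 : dd (w a) eβ ≠ 0 := by
    intro h
    apply hβ
    rw [← aβ, h, sign_zero]
  have hneg : (dd (w a) eβ * dd (w a) eβ) *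
      (dd (w a) (Function.update eγ i none) * dd (w a) eγ) < 0 := by
    rw [tγn, sign_eq_neg_one_iff] at h2
    exact mul_neg_of_pos_of_neg (mul_self_pos.2 hβ0) h2
  have hpos : 0 ≤ ∑ j, (dd (w a) (Function.update eγ i (eβ j)) * dd (w a) eγ) *
        (dd (w a) (Function.update eβ j none) * dd (w a) eβ) := by
    apply Finset.sum_nonneg
    intro j _
    rcases lt_trichotomy (β j) t with hlt | heq | hgt
    · have e1 : 0 ≤ dd (w a) (Function.update eγ i (eβ j)) * dd (w a) eγ := by
        have := h4 (β j) hlt
        rw [tγk, Ne, sign_eq_neg_one_iff, not_lt] at this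
        exact this
      have e2 : 0 ≤ dd (w a) (Function.update eβ j none) * dd (w a) eβ := by
        have := hfeas j hlt
        rw [tβ, Ne, sign_eq_neg_one_iff, not_lt] at this
        exact this
      exact mul_nonneg e1 e2
    · have e0 : j = j0 := by
        by_contra hne
        apply hβ0
        apply dd_eq_zero (w a) eβ hne
        simp [heβ, heq, hj0]
      subst e0
      have e1 : dd (w a) (Function.update eγ i (eβ j)) * dd (w a) eγ < 0 := by
        have := h3
        rw [tγk, sign_eq_neg_one_iff] at this
        simpa [heβ, heq] using this
      have e2 : dd (w a) (Function.update eβ j none) * dd (w a) eβ < 0 := by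
        rw [tβ, sign_eq_neg_one_iff] at h1
        exact h1
      exact (mul_pos_of_neg_of_neg e1 e2).le
    · obtain ⟨l, hl⟩ := hsame (β j) hgt ⟨j, rfl⟩
      have hli : l ≠ i := by
        rintro rfl
        rw [hl] at hi
        exact absurd hi (not_lt.2 hgt.le)
      have e1 : dd (w a) (Function.update eγ i (eβ j)) = 0 := by
        apply dd_eq_zero (w a) _ hli
        simp [heβ, heγ, hl, hli]
      rw [e1]
      simp
  linarith

lemma sigma_inj (hs : 1 ≤ s) (hloc : LocReal (chi w) s σ) (β : Fin m → Option (Fin L))
    (hβ : σ β ≠ 0) {i j : Fin m} (h : β i = β j) : i = j := by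
  by_contra hij
  obtain ⟨a, ha⟩ := hloc {β} (by simpa using hs)
  apply hβ
  rw [← ha β (by simp)]
  unfold chi
  rw [dd_eq_zero (w a) β hij h, sign_zero]

lemma some_update (β : Fin m → Fin L) (i : Fin m) (k : Fin L) :
    (fun j => some (Function.update β i k j)) =
      Function.update (fun j => some (β j)) i (some k) := by
  ext1 j
  by_cases h : j = i
  · subst h; simp
  · simp [h]

lemma mul_self_ne (x : SignType) : x * x ≠ -1 := by
  cases x <;> decide

theorem exists_terminal (hs : m + L + 3 ≤ s) (hloc : LocReal (chi w) s σ) (t : ℕ) :
    t ≤ L → ∀ β : Fin m → Fin L, σ (fun j => some (β j)) ≠ 0 →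
      ∃ β' : Fin m → Fin L, σ (fun j => some (β' j)) ≠ 0 ∧
        (∀ k : Fin L, t ≤ (k : ℕ) → ((∃ j, β j = k) ↔ (∃ j, β' j = k))) ∧
        (FeasTo σ t β' ∨ InfTo σ t β') := by
  induction t with
  | zero =>
    intro _ β hβ
    exact ⟨β, hβ, fun _ _ => Iff.rfl, Or.inl (fun j hj => absurd hj (Nat.not_lt_zero _))⟩
  | succ t ih =>
    intro ht β hβ
    have ih' := ih (by omega)
    set T : Fin L := ⟨t, by omega⟩ with hT
    obtain ⟨β1, hβ1, hsame1, hcase⟩ := ih' β hβ
    have sameTrans : ∀ β' : Fin m → Fin L,
        (∀ k : Fin L, T < k → ((∃ j, β1 j = k) ↔ (∃ j, β' j = k))) →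
        (∀ k : Fin L, t + 1 ≤ (k : ℕ) → ((∃ j, β j = k) ↔ (∃ j, β' j = k))) := by
      intro β' h k hk
      rw [hsame1 k (by omega), h k (by rw [Fin.lt_def]; simpa [hT] using hk)]
    rcases hcase with hF | ⟨i, hi1, hi2, hi3⟩
    · -- feasible below `t`
      by_cases hex : ∃ l, β1 l = T ∧ tau σ β1 l none = -1
      · obtain ⟨l, hl, hlneg⟩ := hex
        by_cases hall : ∀ k : Fin L, (k : ℕ) < t → tau σ β1 l (some k) ≠ -1
        · refine ⟨β1, hβ1, sameTrans β1 (fun _ _ => Iff.rfl), Or.inr ⟨l, ?_, hlneg, ?_⟩⟩
          · rw [hl]; simp [hT]
          · intro k hk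
            by_cases hkt : (k : ℕ) < t
            · exact hall k hkt
            · have hkT : k = T := by
                apply Fin.ext
                simp only [hT]
                omega
              rw [hkT, ← hl]
              unfold tau
              have : Function.update (fun j => some (β1 j)) l (some (β1 l)) =
                  (fun j => some (β1 j)) := Function.update_eq_self l (fun j => some (β1 j))
              rw [this]
              exact mul_self_ne _
        · push Not at hall
          obtain ⟨k, hk, hkneg⟩ := hall
          have hβ2 : σ (fun j => some (Function.update β1 l k j)) ≠ 0 := by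
            rw [some_update]
            intro h0
            unfold tau at hkneg
            rw [h0, zero_mul] at hkneg
            exact absurd hkneg (by decide)
          obtain ⟨β3, hβ3, hsame3, hcase3⟩ := ih' (Function.update β1 l k) hβ2
          have hTnot2 : ¬ ∃ j, Function.update β1 l k j = T := by
            rintro ⟨j, hj⟩
            by_cases hjl : j = l
            · subst hjl
              simp only [Function.update_self] at hj
              rw [hj] at hk
              simp [hT] at hk
            · rw [Function.update_of_ne hjl] at hj
              apply hjl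
              apply sigma_inj (by omega) hloc _ hβ1
              simp [hj, hl]
          have hTnot3 : ¬ ∃ j, β3 j = T := by
            rw [← hsame3 T (by simp [hT])]
            exact hTnot2
          have hsame13 : ∀ k' : Fin L, T < k' → ((∃ j, β1 j = k') ↔ (∃ j, β3 j = k')) := by
            intro k' hk'
            rw [← hsame3 k' (by rw [Fin.lt_def] at hk'; simp [hT] at hk'; omega)]
            constructor
            · rintro ⟨j, hj⟩
              have hjl : j ≠ l := by
                rintro rfl
                rw [hl] at hj
                exact absurd hk' (by rw [hj]; exact lt_irrefl _)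
              exact ⟨j, by rw [Function.update_of_ne hjl]; exact hj⟩
            · rintro ⟨j, hj⟩
              have hjl : j ≠ l := by
                rintro rfl
                simp only [Function.update_self] at hj
                rw [hj] at hk
                rw [Fin.lt_def] at hk'
                simp [hT] at hk'
                omega
              exact ⟨j, by rw [Function.update_of_ne hjl] at hj; exact hj⟩
          rcases hcase3 with hF3 | ⟨i3, hi31, hi32, hi33⟩
          · refine ⟨β3, hβ3, sameTrans β3 hsame13, Or.inl ?_⟩
            intro j hj
            by_cases hjt : (β3 j : ℕ) < t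
            · exact hF3 j hjt
            · exact absurd ⟨j, Fin.ext (by simp only [hT]; omega)⟩ hTnot3
          · by_cases hneg : tau σ β3 i3 (some T) = -1
            · exfalso
              exact no_pair hs hloc T β1 β3 hβ1 hβ3 l hl hlneg hF i3
                (by rw [Fin.lt_def]; simpa [hT] using hi31) hi32 hneg
                (fun k' hk' => hi33 k' (by rw [Fin.lt_def] at hk'; simpa [hT] using hk'))
                (fun k' hk' h => (hsame13 k' hk').1 h)
            · refine ⟨β3, hβ3, sameTrans β3 hsame13, Or.inr ⟨i3, by omega, hi32, ?_⟩⟩
              intro k' hk'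
              by_cases hkt : (k' : ℕ) < t
              · exact hi33 k' hkt
              · have hkT : k' = T := by
                  apply Fin.ext
                  simp only [hT]
                  omega
                rw [hkT]
                exact hneg
      · push Not at hex
        refine ⟨β1, hβ1, sameTrans β1 (fun _ _ => Iff.rfl), Or.inl ?_⟩
        intro j hj
        by_cases hjt : (β1 j : ℕ) < t
        · exact hF j hjt
        · exact hex j (Fin.ext (by simp only [hT]; omega))
    · -- infeasible below `t`
      by_cases hneg : tau σ β1 i (some T) = -1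
      · have hβ2 : σ (fun j => some (Function.update β1 i T j)) ≠ 0 := by
          rw [some_update]
          intro h0
          unfold tau at hneg
          rw [h0, zero_mul] at hneg
          exact absurd hneg (by decide)
        obtain ⟨β3, hβ3, hsame3, hcase3⟩ := ih' (Function.update β1 i T) hβ2
        have hT3 : ∃ j, β3 j = T := by
          rw [← hsame3 T (by simp [hT])]
          exact ⟨i, by simp⟩
        have hsame13 : ∀ k' : Fin L, T < k' → ((∃ j, β1 j = k') ↔ (∃ j, β3 j = k')) := by
          intro k' hk'
          rw [← hsame3 k' (by rw [Fin.lt_def] at hk'; simp [hT] at hk'; omega)]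
          constructor
          · rintro ⟨j, hj⟩
            have hji : j ≠ i := by
              rintro rfl
              rw [hj] at hi1
              rw [Fin.lt_def] at hk'
              simp [hT] at hk'
              omega
            exact ⟨j, by rw [Function.update_of_ne hji]; exact hj⟩
          · rintro ⟨j, hj⟩
            have hji : j ≠ i := by
              rintro rfl
              simp only [Function.update_self] at hj
              exact absurd hk' (by rw [hj]; exact lt_irrefl _)
            exact ⟨j, by rw [Function.update_of_ne hji] at hj; exact hj⟩
        rcases hcase3 with hF3 | ⟨i3, hi31, hi32, hi33⟩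
        · by_cases hex : ∃ l, β3 l = T ∧ tau σ β3 l none = -1
          · exfalso
            obtain ⟨l, hl, hlneg⟩ := hex
            exact no_pair hs hloc T β3 β1 hβ3 hβ1 l hl hlneg hF3 i
              (by rw [Fin.lt_def]; simpa [hT] using hi1) hi2 hneg
              (fun k' hk' => hi3 k' (by rw [Fin.lt_def] at hk'; simpa [hT] using hk'))
              (fun k' hk' h => (hsame13 k' hk').2 h)
          · push Not at hex
            refine ⟨β3, hβ3, sameTrans β3 hsame13, Or.inl ?_⟩
            intro j hj
            by_cases hjt : (β3 j : ℕ) < t
            · exact hF3 j hjt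
            · exact hex j (Fin.ext (by simp only [hT]; omega))
        · refine ⟨β3, hβ3, sameTrans β3 hsame13, Or.inr ⟨i3, by omega, hi32, ?_⟩⟩
          intro k' hk'
          by_cases hkt : (k' : ℕ) < t
          · exact hi33 k' hkt
          · have hkT : k' = T := by
              apply Fin.ext
              simp only [hT]
              omega
            rw [hkT]
            obtain ⟨l, hl⟩ := hT3
            have hli : l ≠ i3 := by
              rintro rfl
              rw [hl] at hi31
              simp [hT] at hi31
            have h0 : σ (Function.update (fun j => some (β3 j)) i3 (some T)) = 0 := by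
              by_contra hne
              apply hli
              apply sigma_inj (by omega) hloc _ hne
              simp [hli, hl]
            unfold tau
            rw [h0, zero_mul]
            decide
      · refine ⟨β1, hβ1, sameTrans β1 (fun _ _ => Iff.rfl), Or.inr ⟨i, by omega, hi2, ?_⟩⟩
        intro k' hk'
        by_cases hkt : (k' : ℕ) < t
        · exact hi3 k' hkt
        · have hkT : k' = T := by
            apply Fin.ext
            simp only [hT]
            omega
          rw [hkT]
          exact hneg

end

end Pool.Agent.H558R2
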