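import Pool.Agent.H558R2.LP
import Pool.Agent.Helper448.Warren

set_option autoImplicit false

/-!
# The number of realizable sign patterns
-/

namespace Pool.Agent.H558R2

open Matrix MvPolynomial

variable {m n : ℕ}

/-- Variables: the entries of `A` and of `b`. -/
abbrev Idx (m n : ℕ) : Type := (Fin m × Fin n) ⊕ Fin m

/-- The generic matrix. -/
noncomputable def polyMat (m n : ℕ) :
    Matrix (Fin m) (Option (Fin (m + (n + n)))) (MvPolynomial (Idx m n) ℝ) :=
  wmat (fun i j => X (Sum.inl (i, j))) (fun i => X (Sum.inr i))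

/-- The generic minor. -/
noncomputable def polyMinor (m n : ℕ) (β : Fin m → Option (Fin (m + (n + n)))) :
    MvPolynomial (Idx m n) ℝ :=
  (Matrix.of fun i j => polyMat m n i (β j)).det

lemma totalDegree_polyMat (i : Fin m) (x : Option (Fin (m + (n + n)))) :
    (polyMat m n i x).totalDegree ≤ 1 := by
  unfold polyMat wmat
  rcases x with _ | k
  · simp only [totalDegree_neg, totalDegree_X, le_refl]
  · simp only
    rcases (colEquiv m n).symm k with r | c | c
    · simp only [colEntry]
      split_ifs <;> simp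
    · simp [colEntry]
    · simp [colEntry]

lemma totalDegree_polyMinor (β : Fin m → Option (Fin (m + (n + n)))) :
    (polyMinor m n β).totalDegree ≤ m := by
  unfold polyMinor
  rw [det_apply]
  apply (totalDegree_finset_sum _ _).trans
  apply Finset.sup_le
  intro σ _
  refine (totalDegree_smul_le _ _).trans ?_
  refine (totalDegree_finset_prod _ _).trans ?_
  refine (Finset.sum_le_sum fun i _ => totalDegree_polyMat _ _).trans ?_
  simp

/-- An input as a valuation of the variables. -/
def val (a : Inp m n) : Idx m n → ℝ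
  | Sum.inl p => a.1 p.1 p.2
  | Sum.inr i => a.2 i

lemma eval_polyMinor (a : Inp m n) (β : Fin m → Option (Fin (m + (n + n)))) :
    eval (val a) (polyMinor m n β) = dd (wmat a.1 a.2) β := by
  unfold polyMinor dd
  rw [RingHom.map_det]
  congr 1
  ext i j
  simp only [RingHom.mapMatrix_apply, map_apply, of_apply]
  unfold polyMat wmat
  rcases β j with _ | k
  · simp [val]
  · simp only
    rcases (colEquiv m n).symm k with r | c | c
    · simp only [colEntry]
      split_ifs <;> simp
    · simp [colEntry, val]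
    · simp [colEntry, val]

/-- A crude exponent bounding the number of sign patterns. -/
def pexp (m n : ℕ) : ℕ := ((m + (n + n) + 1) * m + m + 3) * (m * n + m)

theorem ncard_pat_le (m n : ℕ) :
    (Set.range (pat (m := m) (n := n))).ncard ≤ 2 ^ pexp m n := by
  classical
  have h := Pool.Agent.Helper448.Warren.ncard_sign_patterns_le (polyMinor m n) m
    totalDegree_polyMinor
  have h1 : Set.range (pat (m := m) (n := n)) ⊆
      Set.range (fun x : Idx m n → ℝ => fun β => SignType.sign (eval x (polyMinor m n β))) := by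
    rintro _ ⟨a, rfl⟩
    refine ⟨val a, ?_⟩
    ext1 β
    simp only [eval_polyMinor]
    rfl
  refine (Set.ncard_le_ncard h1 (Set.toFinite _)).trans (h.trans ?_)
  have hc : Fintype.card (Fin m → Option (Fin (m + (n + n)))) = (m + (n + n) + 1) ^ m := by
    simp
  have hI : Fintype.card (Idx m n) = m * n + m := by
    simp
  rw [hc, hI]
  unfold pexp
  rw [pow_mul]
  apply Nat.pow_le_pow_left
  have e1 : (m + (n + n) + 1) ^ m ≤ 2 ^ ((m + (n + n) + 1) * m) := by
    rw [pow_mul]
    exact Nat.pow_le_pow_left Nat.lt_two_pow_self.le _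
  have e2 : m < 2 ^ m := Nat.lt_two_pow_self
  have e3 : 1 ≤ (m + (n + n) + 1) ^ m := Nat.one_le_pow _ _ (by omega)
  have e4 : 4 * (m + (n + n) + 1) ^ m * m + 2 ≤ 8 * (m + (n + n) + 1) ^ m * 2 ^ m := by
    have : m + 1 ≤ 2 ^ m := e2
    calc 4 * (m + (n + n) + 1) ^ m * m + 2
        ≤ 4 * (m + (n + n) + 1) ^ m * m + 4 * (m + (n + n) + 1) ^ m := by omega
      _ = 4 * (m + (n + n) + 1) ^ m * (m + 1) := by ring
      _ ≤ 4 * (m + (n + n) + 1) ^ m * 2 ^ m := Nat.mul_le_mul_left _ this
      _ ≤ 8 * (m + (n + n) + 1) ^ m * 2 ^ m := by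
          apply Nat.mul_le_mul_right
          omega
  calc 4 * (m + (n + n) + 1) ^ m * m + 2 ≤ 8 * (m + (n + n) + 1) ^ m * 2 ^ m := e4
    _ ≤ 8 * 2 ^ ((m + (n + n) + 1) * m) * 2 ^ m := by gcongr
    _ = 2 ^ ((m + (n + n) + 1) * m + m + 3) := by
        rw [pow_add, pow_add]
        ring

open Classical in
/-- **Linear feasibility has polynomial sign-query complexity**: a decision tree of polynomial
depth whose queries are signs of minors decides linear feasibility. -/
theorem exists_queryTree (m n : ℕ) :
    ∃ T : QT (Fin m → Option (Fin (m + (n + n)))),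
      T.depth ≤ (2 * m + 2 * n + 3) * ((2 * m + 2 * n + 3) * (pexp m n + 1)) ∧
      ∀ a : Inp m n, T.eval (pat a) = decide (Feas a) := by
  have h := exists_tree (pat (m := m) (n := n)) (fun a => decide (Feas a)) (2 * m + 2 * n + 3)
    (by omega) (fun σ hσ => exists_cert (2 * m + 2 * n + 3) (by omega) σ hσ) (pexp m n)
    (ncard_pat_le m n)
  exact h

end Pool.Agent.H558R2
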