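import Pool.Agent.H558R2.Slp
import Pool.Agent.H558R2.FL
import Pool.Agent.H558R2.Count

set_option autoImplicit false

/-!
# Evaluation of minors by straight-line programs with small numbers
-/

namespace Pool.Agent.H558R2

open Matrix

/-! ### Integrality and size -/

/-- `v * E` is an integer of absolute value at most `B`. -/
def IB (v : ℝ) (E B : ℕ) : Prop := ∃ N : ℤ, v * E = N ∧ |N| ≤ B

lemma IB.mono {v : ℝ} {E B B' : ℕ} (h : IB v E B) (hB : B ≤ B') : IB v E B' := by
  obtain ⟨N, h1, h2⟩ := h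
  exact ⟨N, h1, h2.trans (by exact_mod_cast hB)⟩

lemma IB.sum {ι : Type*} (t : Finset ι) {f : ι → ℝ} {E B : ℕ} (h : ∀ i ∈ t, IB (f i) E B) :
    IB (∑ i ∈ t, f i) E (t.card * B) := by
  classical
  induction t using Finset.induction_on with
  | empty => exact ⟨0, by simp, by simp⟩
  | insert a t ha ih =>
    obtain ⟨N, h1, h2⟩ := h a (Finset.mem_insert_self a t)
    obtain ⟨M, h3, h4⟩ := ih (fun i hi => h i (Finset.mem_insert_of_mem hi))
    refine ⟨N + M, ?_, ?_⟩
    · rw [Finset.sum_insert ha, add_mul, h1, h3]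
      push_cast
      ring
    · refine (abs_add_le _ _).trans ?_
      rw [Finset.card_insert_of_notMem ha]
      push_cast at h4 ⊢
      linarith

lemma IB.mul {v w : ℝ} {E B E' B' : ℕ} (h : IB v E B) (h' : IB w E' B') :
    IB (v * w) (E * E') (B * B') := by
  obtain ⟨N, h1, h2⟩ := h
  obtain ⟨M, h3, h4⟩ := h'
  refine ⟨N * M, ?_, ?_⟩
  · push_cast
    rw [← h1, ← h3]
    ring
  · rw [abs_mul]
    push_cast
    exact mul_le_mul h2 h4 (abs_nonneg _) (by positivity)

lemma IB.scale {v : ℝ} {E B : ℕ} (h : IB v E B) (c : ℕ) : IB v (E * c) (B * c) := by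
  obtain ⟨N, h1, h2⟩ := h
  refine ⟨N * c, ?_, ?_⟩
  · push_cast
    rw [← h1]
    ring
  · rw [abs_mul]
    push_cast
    rw [abs_of_nonneg (by positivity : (0 : ℤ) ≤ (c : ℤ))]
    exact mul_le_mul_of_nonneg_right h2 (by positivity)

lemma IB.div {v : ℝ} {E B : ℕ} (h : IB v E B) (c : ℕ) (hc : 1 ≤ c) : IB (v / c) (E * c) B := by
  obtain ⟨N, h1, h2⟩ := h
  refine ⟨N, ?_, h2⟩
  have hc' : (c : ℝ) ≠ 0 := by positivity
  push_cast
  rw [← h1]
  field_simp

lemma IB.sub {v w : ℝ} {E B B' : ℕ} (h : IB v E B) (h' : IB w E B') : IB (v - w) E (B + B') := by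
  obtain ⟨N, h1, h2⟩ := h
  obtain ⟨M, h3, h4⟩ := h'
  refine ⟨N - M, ?_, ?_⟩
  · push_cast
    rw [← h1, ← h3]
    ring
  · refine (abs_sub N M).trans ?_
    push_cast
    linarith

lemma IB.zero (E B : ℕ) : IB 0 E B := ⟨0, by simp, by simp⟩

variable {m n : ℕ}

/-- The bound for numerators and denominators. -/
def big (m H : ℕ) : ℕ := (2 * m ^ 3 * H) ^ (m + 1)

/-- All values of the function on rational inputs are small. -/
def SmallVal (f : Fn (Idx m n)) : Prop :=
  ∀ (D H : ℕ) (X : Idx m n → ℤ), 1 ≤ D → D ≤ H → (∀ i, |X i| ≤ H) →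
    ∃ E, 1 ≤ E ∧ E ≤ big m H ∧ IB (f (fun i => (X i : ℝ) / D)) E (big m H)

/-- Minus the matrix of the columns `β`, as a function of the input. -/
noncomputable def Bm (β : Fin m → Option (Fin (m + (n + n)))) (x : Idx m n → ℝ) :
    Matrix (Fin m) (Fin m) ℝ :=
  - Matrix.of fun i j => wmat (fun i j => x (Sum.inl (i, j))) (fun i => x (Sum.inr i)) i (β j)

variable (β : Fin m → Option (Fin (m + (n + n))))

noncomputable def Ef (i j : Fin m) : Fn (Idx m n) := fun x => Bm β x i j

noncomputable def Nf (k : ℕ) (i j : Fin m) : Fn (Idx m n) := fun x => flN (Bm β x) k i j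

noncomputable def Tf (k : ℕ) (i j : Fin m) : Fn (Idx m n) :=
  fun x => ∑ l, Ef β i l x * Nf β k l j x

noncomputable def Qf (k : ℕ) : Fn (Idx m n) := fun x => (∑ i, Tf β k i i x) / ((k + 1 : ℕ) : ℝ)

noncomputable def cf (k : ℕ) : Fn (Idx m n) := fun _ => (k : ℝ)

lemma Nf_succ (k : ℕ) (i j : Fin m) (x : Idx m n → ℝ) :
    Nf β (k + 1) i j x = Tf β k i j x - (if i = j then Qf β k x else 0) := by
  have e1 : (Bm β x * flN (Bm β x) k) i j = Tf β k i j x := by
    rw [mul_apply]; rfl
  have e2 : trace (Bm β x * flN (Bm β x) k) / ((k : ℝ) + 1) = Qf β k x := by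
    unfold Qf
    push_cast
    congr 1
  unfold Nf
  rw [flN, Matrix.sub_apply, e1, e2, Matrix.smul_apply, smul_eq_mul, Matrix.one_apply]
  split_ifs <;> simp

/-! ### Bounds -/

section Bounds

variable {D H : ℕ} {X : Idx m n → ℤ} (hD : 1 ≤ D) (hDH : D ≤ H) (hX : ∀ i, |X i| ≤ H)

include hD hDH hX

lemma ib_Ef (i j : Fin m) : IB (Ef β i j (fun i => (X i : ℝ) / D)) D H := by
  have hD' : (D : ℝ) ≠ 0 := by positivity
  unfold Ef Bm
  rw [neg_apply, of_apply]
  unfold wmat
  rcases β j with _ | k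
  · refine ⟨X (Sum.inr i), ?_, hX _⟩
    simp only
    field_simp
  · simp only
    rcases (colEquiv m n).symm k with r | c | c
    · simp only [colEntry]
      split_ifs
      · refine ⟨-D, by push_cast; ring, ?_⟩
        rw [abs_neg]
        simpa using hDH
      · exact ⟨0, by simp, by simp⟩
    · refine ⟨X (Sum.inl (i, c)), ?_, hX _⟩
      simp only [colEntry]
      field_simp
    · refine ⟨-X (Sum.inl (i, c)), ?_, by rw [abs_neg]; exact hX _⟩
      simp only [colEntry]
      push_cast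
      field_simp

lemma ib_prod (k : ℕ) (i l j : Fin m)
    (hN : IB (Nf β k l j (fun i => (X i : ℝ) / D)) (k.factorial * D ^ k)
      ((2 * m ^ 3 * H) ^ k)) :
    IB (Ef β i l (fun i => (X i : ℝ) / D) * Nf β k l j (fun i => (X i : ℝ) / D))
      (k.factorial * D ^ (k + 1)) (H * (2 * m ^ 3 * H) ^ k) := by
  have h := (ib_Ef β hD hDH hX i l).mul hN
  have e : D * (k.factorial * D ^ k) = k.factorial * D ^ (k + 1) := by ring
  rwa [e] at h

lemma ib_Tsum (k : ℕ) (i j : Fin m) (t : Finset (Fin m))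
    (hN : ∀ l, IB (Nf β k l j (fun i => (X i : ℝ) / D)) (k.factorial * D ^ k)
      ((2 * m ^ 3 * H) ^ k)) :
    IB (∑ l ∈ t, Ef β i l (fun i => (X i : ℝ) / D) * Nf β k l j (fun i => (X i : ℝ) / D))
      (k.factorial * D ^ (k + 1)) (m * (H * (2 * m ^ 3 * H) ^ k)) := by
  refine (IB.sum t fun l _ => ib_prod β hD hDH hX k i l j (hN l)).mono ?_
  apply Nat.mul_le_mul_right
  exact (Finset.card_le_univ t).trans (by simp)

lemma ib_trace (k : ℕ) (t : Finset (Fin m))
    (hN : ∀ l j, IB (Nf β k l j (fun i => (X i : ℝ) / D)) (k.factorial * D ^ k)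
      ((2 * m ^ 3 * H) ^ k)) :
    IB (∑ i ∈ t, Tf β k i i (fun i => (X i : ℝ) / D))
      (k.factorial * D ^ (k + 1)) (m * (m * (H * (2 * m ^ 3 * H) ^ k))) := by
  refine (IB.sum t fun i _ => ib_Tsum β hD hDH hX k i i Finset.univ (fun l => hN l i)).mono ?_
  apply Nat.mul_le_mul_right
  exact (Finset.card_le_univ t).trans (by simp)

lemma ib_Qf (k : ℕ)
    (hN : ∀ l j, IB (Nf β k l j (fun i => (X i : ℝ) / D)) (k.factorial * D ^ k)
      ((2 * m ^ 3 * H) ^ k)) :
    IB (Qf β k (fun i => (X i : ℝ) / D))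
      ((k + 1).factorial * D ^ (k + 1)) (m * (m * (H * (2 * m ^ 3 * H) ^ k))) := by
  have h := (ib_trace β hD hDH hX k Finset.univ hN).div (k + 1) (by omega)
  have e : k.factorial * D ^ (k + 1) * (k + 1) = (k + 1).factorial * D ^ (k + 1) := by
    rw [Nat.factorial_succ]; ring
  rw [e] at h
  exact h

lemma ib_Nf (hm : 1 ≤ m) (k : ℕ) (hk : k ≤ m) : ∀ i j,
    IB (Nf β k i j (fun i => (X i : ℝ) / D)) (k.factorial * D ^ k) ((2 * m ^ 3 * H) ^ k) := by
  induction k with
  | zero =>
    intro i j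
    unfold Nf
    rw [flN, one_apply]
    split_ifs
    · exact ⟨1, by simp, by simp⟩
    · exact ⟨0, by simp, by simp⟩
  | succ k ih =>
    intro i j
    have ih' := ih (by omega)
    rw [Nf_succ]
    have h1 := (ib_Tsum β hD hDH hX k i j Finset.univ (fun l => ih' l j)).scale (k + 1)
    have e : k.factorial * D ^ (k + 1) * (k + 1) = (k + 1).factorial * D ^ (k + 1) := by
      rw [Nat.factorial_succ]; ring
    rw [e] at h1
    have h2 : IB (if i = j then Qf β k (fun i => (X i : ℝ) / D) else 0)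
        ((k + 1).factorial * D ^ (k + 1)) (m * (m * (H * (2 * m ^ 3 * H) ^ k))) := by
      split_ifs
      · exact ib_Qf β hD hDH hX k ih'
      · exact IB.zero _ _
    refine (h1.sub h2).mono ?_
    have e1 : m * (H * (2 * m ^ 3 * H) ^ k) * (k + 1) ≤ m * (H * (2 * m ^ 3 * H) ^ k) * m :=
      Nat.mul_le_mul_left _ hk
    have e2 : m * (H * (2 * m ^ 3 * H) ^ k) * m + m * (m * (H * (2 * m ^ 3 * H) ^ k)) =
        (2 * m ^ 2 * H) * (2 * m ^ 3 * H) ^ k := by ring
    have e3 : 2 * m ^ 2 * H ≤ 2 * m ^ 3 * H := by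
      apply Nat.mul_le_mul_right
      apply Nat.mul_le_mul_left
      exact Nat.pow_le_pow_right hm (by omega)
    calc m * (H * (2 * m ^ 3 * H) ^ k) * (k + 1) + m * (m * (H * (2 * m ^ 3 * H) ^ k))
        ≤ m * (H * (2 * m ^ 3 * H) ^ k) * m + m * (m * (H * (2 * m ^ 3 * H) ^ k)) := by omega
      _ = (2 * m ^ 2 * H) * (2 * m ^ 3 * H) ^ k := e2
      _ ≤ (2 * m ^ 3 * H) * (2 * m ^ 3 * H) ^ k := Nat.mul_le_mul_right _ e3
      _ = (2 * m ^ 3 * H) ^ (k + 1) := by ring

omit hX in
lemma big_E (hm : 1 ≤ m) (k e : ℕ) (hk : k ≤ m) (he : e ≤ m) :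
    1 ≤ k.factorial * D ^ e ∧ k.factorial * D ^ e ≤ big m H := by
  refine ⟨Nat.mul_pos (Nat.factorial_pos _) (Nat.pow_pos hD), ?_⟩
  have h1 : k.factorial ≤ m ^ m :=
    (Nat.factorial_le hk).trans (Nat.factorial_le_pow m)
  have hH : 1 ≤ H := hD.trans hDH
  have h2 : D ^ e ≤ H ^ m := (Nat.pow_le_pow_left hDH e).trans (Nat.pow_le_pow_right hH he)
  unfold big
  calc k.factorial * D ^ e ≤ m ^ m * H ^ m := Nat.mul_le_mul h1 h2
    _ = (m * H) ^ m := by rw [mul_pow]
    _ ≤ (2 * m ^ 3 * H) ^ m := by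
        apply Nat.pow_le_pow_left
        apply Nat.mul_le_mul_right
        have : m ^ 1 ≤ m ^ 3 := Nat.pow_le_pow_right hm (by omega)
        rw [pow_one] at this
        omega
    _ ≤ (2 * m ^ 3 * H) ^ (m + 1) := by
        apply Nat.pow_le_pow_right _ (by omega)
        have : 1 ≤ m ^ 3 := Nat.one_le_pow _ _ hm
        exact Nat.mul_pos (by omega) hH

omit hX in
lemma big_B (hm : 1 ≤ m) (k : ℕ) (hk : k + 1 ≤ m) :
    m * (m * (H * (2 * m ^ 3 * H) ^ k)) ≤ big m H := by
  have hH : 1 ≤ H := hD.trans hDH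
  have h3 : 1 ≤ 2 * m ^ 3 * H := by
    have : 1 ≤ m ^ 3 := Nat.one_le_pow _ _ hm
    exact Nat.mul_pos (by omega) hH
  unfold big
  calc m * (m * (H * (2 * m ^ 3 * H) ^ k)) = (m ^ 2 * H) * (2 * m ^ 3 * H) ^ k := by ring
    _ ≤ (2 * m ^ 3 * H) * (2 * m ^ 3 * H) ^ k := by
        apply Nat.mul_le_mul_right
        apply Nat.mul_le_mul_right
        have : m ^ 2 ≤ m ^ 3 := Nat.pow_le_pow_right hm (by omega)
        omega
    _ = (2 * m ^ 3 * H) ^ (k + 1) := by ring
    _ ≤ (2 * m ^ 3 * H) ^ (m + 1) := Nat.pow_le_pow_right h3 (by omega)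

end Bounds

/-! ### The program -/

section Program

variable (hm : 1 ≤ m)

include hm

lemma der_Ef (i j : Fin m) : Der (SmallVal (m := m) (n := n)) ∅ 1 {Ef β i j} := by
  have hsmall : SmallVal (Ef β i j) := by
    intro D H X hD hDH hX
    have hb := big_E hD hDH hm 0 1 (by omega) hm
    refine ⟨D, hD, ?_, (ib_Ef β hD hDH hX i j).mono ?_⟩
    · simpa using hb.2
    · have h3 : H ≤ m * (m * (H * (2 * m ^ 3 * H) ^ 0)) := by
        rw [pow_zero, mul_one]
        calc H = 1 * (1 * H) := by ring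
          _ ≤ m * (m * H) := Nat.mul_le_mul hm (Nat.mul_le_mul_right _ hm)
      exact h3.trans (big_B hD hDH hm 0 (by omega))
  -- the four kinds of columns
  have hval : ∀ x, Ef β i j x =
      - wmat (fun i j => x (Sum.inl (i, j))) (fun i => x (Sum.inr i)) i (β j) := fun x => rfl
  rcases hβ : β j with _ | k
  · -- the right-hand side
    have e : Ef β i j = fun x => x (Sum.inr i) := by
      ext x
      rw [hval, hβ]
      simp [wmat]
    refine (Der.base ?_).mono subset_rfl (Nat.zero_le 1) subset_rfl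
    intro f hf G _
    rw [Set.mem_singleton_iff.1 hf, e]
    exact Or.inl ⟨_, rfl⟩
  · rcases hc : (colEquiv m n).symm k with r | c | c
    · by_cases hir : i = r
      · have e : Ef β i j = fun x => Op.sub.eval ((fun _ => 0 : Fn (Idx m n)) x)
            ((fun _ => 1 : Fn (Idx m n)) x) := by
          ext x
          rw [hval, hβ]
          simp [wmat, hc, colEntry, hir, Op.eval]
        rw [e]
        refine Der.op Op.sub _ _ (fun G _ => Or.inr (Or.inl rfl))
          (fun G _ => Or.inr (Or.inr (Or.inl rfl))) (by simp) ?_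
        rw [← e]
        exact hsmall
      · have e : Ef β i j = fun x => 0 := by
          ext x
          rw [hval, hβ]
          simp [wmat, hc, colEntry, hir]
        refine (Der.base ?_).mono subset_rfl (Nat.zero_le 1) subset_rfl
        intro f hf G _
        rw [Set.mem_singleton_iff.1 hf, e]
        exact Or.inr (Or.inl rfl)
    · have e : Ef β i j = fun x => x (Sum.inl (i, c)) := by
        ext x
        rw [hval, hβ]
        simp [wmat, hc, colEntry]
      refine (Der.base ?_).mono subset_rfl (Nat.zero_le 1) subset_rfl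
      intro f hf G _
      rw [Set.mem_singleton_iff.1 hf, e]
      exact Or.inl ⟨_, rfl⟩
    · have e : Ef β i j = fun x => Op.sub.eval ((fun _ => 0 : Fn (Idx m n)) x)
          ((fun x => x (Sum.inl (i, c)) : Fn (Idx m n)) x) := by
        ext x
        rw [hval, hβ]
        simp [wmat, hc, colEntry, Op.eval]
      rw [e]
      refine Der.op Op.sub _ _ (fun G _ => Or.inr (Or.inl rfl))
        (fun G _ => Or.inl ⟨_, rfl⟩) (by simp) ?_
      rw [← e]
      exact hsmall

/-- All entries of the matrix. -/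
def EfSet : Set (Fn (Idx m n)) := {f | ∃ i j, f = Ef β i j}

/-- All entries of the `k`-th matrix. -/
def NfSet (k : ℕ) : Set (Fn (Idx m n)) := {f | ∃ i j, f = Nf β k i j}

/-- All entries of the `k`-th product. -/
def TfSet (k : ℕ) : Set (Fn (Idx m n)) := {f | ∃ i j, f = Tf β k i j}

lemma der_EfSet : Der (SmallVal (m := m) (n := n)) ∅ (m * m) (EfSet β) := by
  have h := Der.iUnion (P := SmallVal (m := m) (n := n)) (K := ∅) (c := 1)
    (Finset.univ : Finset (Fin m × Fin m)) (S := fun p => {Ef β p.1 p.2})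
    (fun p _ => der_Ef β hm p.1 p.2)
  refine h.mono subset_rfl (by simp) ?_
  rintro f ⟨i, j, rfl⟩
  simp only [Finset.mem_univ, Set.iUnion_true, Set.mem_iUnion, Set.mem_singleton_iff]
  exact ⟨(i, j), rfl⟩

lemma der_TfSet (k : ℕ) (hk : k + 1 ≤ m) :
    Der (SmallVal (m := m) (n := n)) (EfSet β ∪ NfSet β k) (m * m * (2 * m)) (TfSet β k) := by
  have hT : ∀ i j, Der (SmallVal (m := m) (n := n)) (EfSet β ∪ NfSet β k) (2 * m)
      {Tf β k i j} := by
    intro i j
    have hsum : ∀ t ⊆ (Finset.univ : Finset (Fin m)),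
        SmallVal (fun x => ∑ l ∈ t, Ef β i l x * Nf β k l j x) := by
      intro t _ D H X hD hDH hX
      have hN := ib_Nf β hD hDH hX hm k (by omega)
      have h1 := ib_Tsum β hD hDH hX k i j t (fun l => hN l j)
      have hb := big_E hD hDH hm k (k + 1) (by omega) (by omega)
      refine ⟨_, hb.1, hb.2, h1.mono ?_⟩
      refine le_trans ?_ (big_B hD hDH hm k hk)
      exact Nat.le_mul_of_pos_left _ hm
    have h := Der.dot (P := SmallVal (m := m) (n := n)) (K := EfSet β ∪ NfSet β k)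
      (Finset.univ : Finset (Fin m)) (fun l => Ef β i l) (fun l => Nf β k l j)
      (fun l _ G hG => hG _ (Or.inl ⟨i, l, rfl⟩)) (fun l _ => Or.inr ⟨l, j, rfl⟩)
      (fun l _ => by simpa using hsum {l} (by simp)) hsum
    rw [Finset.card_univ, Fintype.card_fin] at h
    exact h
  have h := Der.iUnion (P := SmallVal (m := m) (n := n)) (K := EfSet β ∪ NfSet β k) (c := 2 * m)
    (Finset.univ : Finset (Fin m × Fin m)) (S := fun p => {Tf β k p.1 p.2})
    (fun p _ => hT p.1 p.2)
  refine h.mono subset_rfl (by simp) ?_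
  rintro f ⟨i, j, rfl⟩
  simp only [Finset.mem_univ, Set.iUnion_true, Set.mem_iUnion, Set.mem_singleton_iff]
  exact ⟨(i, j), rfl⟩

lemma small_cf (k : ℕ) (hk : k ≤ m) : SmallVal (cf (m := m) (n := n) k) := by
  intro D H X hD hDH hX
  have hb := big_E hD hDH hm 0 0 (by omega) (by omega)
  refine ⟨1, le_rfl, by simpa using hb.2, ⟨k, by simp [cf], ?_⟩⟩
  have h1 : m ≤ big m H := by
    have hH : 1 ≤ H := hD.trans hDH
    refine le_trans ?_ (big_B hD hDH hm 0 (by omega))
    rw [pow_zero, mul_one]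
    calc m = m * (1 * 1) := by ring
      _ ≤ m * (m * H) := Nat.mul_le_mul_left _ (Nat.mul_le_mul hm hH)
  rw [abs_of_nonneg (by positivity)]
  exact_mod_cast hk.trans h1

lemma der_Qf (k : ℕ) (hk : k + 1 ≤ m) :
    Der (SmallVal (m := m) (n := n)) (TfSet β k ∪ {cf k}) (m + 2) ({Qf β k} ∪ {cf (k + 1)}) := by
  have h1 : Der (SmallVal (m := m) (n := n)) (TfSet β k ∪ {cf k}) 1 {cf (k + 1)} := by
    have e : cf (m := m) (n := n) (k + 1) =
        fun x => Op.add.eval (cf (m := m) (n := n) k x) ((fun _ => 1 : Fn (Idx m n)) x) := by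
      ext x
      simp [cf, Op.eval]
    rw [e]
    refine Der.op Op.add _ _ (fun G hG => hG _ (Or.inr rfl))
      (fun G _ => Or.inr (Or.inr (Or.inl rfl))) (by simp) ?_
    rw [← e]
    exact small_cf hm (k + 1) hk
  have h2 : Der (SmallVal (m := m) (n := n)) ((TfSet β k ∪ {cf k}) ∪ {cf (k + 1)}) m
      {fun x => ∑ i, Tf β k i i x} := by
    have h := Der.sum (P := SmallVal (m := m) (n := n))
      (K := (TfSet β k ∪ {cf k}) ∪ {cf (k + 1)})
      (Finset.univ : Finset (Fin m)) (fun i => Tf β k i i)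
      (fun i _ => Or.inl (Or.inl ⟨i, i, rfl⟩)) (by
        intro t _ D H X hD hDH hX
        have hN := ib_Nf β hD hDH hX hm k (by omega)
        have h1 := ib_trace β hD hDH hX k t hN
        have hb := big_E hD hDH hm k (k + 1) (by omega) (by omega)
        exact ⟨_, hb.1, hb.2, h1.mono (big_B hD hDH hm k hk)⟩)
    simpa using h
  have h3 : Der (SmallVal (m := m) (n := n))
      (((TfSet β k ∪ {cf k})) ∪ ({cf (k + 1)} ∪ {fun x => ∑ i, Tf β k i i x})) 1 {Qf β k} := by
    have e : Qf β k = fun x => Op.div.eval ((fun x => ∑ i, Tf β k i i x) x)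
        (cf (m := m) (n := n) (k + 1) x) := by
      ext x
      rfl
    rw [e]
    refine Der.op Op.div _ _ (fun G hG => hG _ (Or.inr (Or.inr rfl)))
      (fun G hG => hG _ (Or.inr (Or.inl rfl))) ?_ ?_
    · intro _ x
      unfold cf
      positivity
    · rw [← e]
      intro D H X hD hDH hX
      have hN := ib_Nf β hD hDH hX hm k (by omega)
      have h1 := ib_Qf β hD hDH hX k hN
      have hb := big_E hD hDH hm (k + 1) (k + 1) hk hk
      exact ⟨_, hb.1, hb.2, h1.mono (big_B hD hDH hm k hk)⟩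
  have h12 := h1.trans h2
  have h := h12.trans h3
  refine h.mono subset_rfl (by omega) ?_
  rintro f (hf | hf)
  · exact Or.inr hf
  · exact Or.inl (Or.inl hf)

lemma der_Nf_succ (k : ℕ) (hk : k + 1 ≤ m) :
    Der (SmallVal (m := m) (n := n)) (TfSet β k ∪ {Qf β k}) (m * m) (NfSet β (k + 1)) := by
  have hN : ∀ i j, Der (SmallVal (m := m) (n := n)) (TfSet β k ∪ {Qf β k}) 1
      {Nf β (k + 1) i j} := by
    intro i j
    by_cases hij : i = j
    · have e : Nf β (k + 1) i j = fun x => Op.sub.eval (Tf β k i j x) (Qf β k x) := by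
        ext x
        rw [Nf_succ, if_pos hij]
        rfl
      rw [e]
      refine Der.op Op.sub _ _ (fun G hG => hG _ (Or.inl ⟨i, j, rfl⟩))
        (fun G hG => hG _ (Or.inr rfl)) (by simp) ?_
      rw [← e]
      intro D H X hD hDH hX
      have h1 := ib_Nf β hD hDH hX hm (k + 1) hk i j
      have hb := big_E hD hDH hm (k + 1) (k + 1) hk hk
      refine ⟨_, hb.1, hb.2, h1.mono ?_⟩
      unfold big
      apply Nat.pow_le_pow_right _ (by omega)
      have : 1 ≤ m ^ 3 := Nat.one_le_pow _ _ hm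
      exact Nat.mul_pos (by omega) (hD.trans hDH)
    · have e : Nf β (k + 1) i j = Tf β k i j := by
        ext x
        rw [Nf_succ, if_neg hij, sub_zero]
      refine (Der.base ?_).mono subset_rfl (Nat.zero_le 1) subset_rfl
      intro f hf G hG
      rw [Set.mem_singleton_iff.1 hf, e]
      exact hG _ (Or.inl ⟨i, j, rfl⟩)
  have h := Der.iUnion (P := SmallVal (m := m) (n := n)) (K := TfSet β k ∪ {Qf β k}) (c := 1)
    (Finset.univ : Finset (Fin m × Fin m)) (S := fun p => {Nf β (k + 1) p.1 p.2})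
    (fun p _ => hN p.1 p.2)
  refine h.mono subset_rfl (by simp) ?_
  rintro f ⟨i, j, rfl⟩
  simp only [Finset.mem_univ, Set.iUnion_true, Set.mem_iUnion, Set.mem_singleton_iff]
  exact ⟨(i, j), rfl⟩

/-- The cost of one round. -/
def roundCost (m : ℕ) : ℕ := m * m * (2 * m) + (m + 2) + m * m

lemma der_round (k : ℕ) (hk : k + 1 ≤ m) :
    Der (SmallVal (m := m) (n := n)) (EfSet β ∪ (NfSet β k ∪ {cf k})) (roundCost m)
      ({Qf β k} ∪ (EfSet β ∪ (NfSet β (k + 1) ∪ {cf (k + 1)}))) := by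
  have h1 := (der_TfSet β hm k hk).mono
    (K' := EfSet β ∪ (NfSet β k ∪ {cf k})) (by
      rintro f (hf | hf)
      · exact Or.inl hf
      · exact Or.inr (Or.inl hf)) le_rfl subset_rfl
  have h2 := (der_Qf β hm k hk).mono
    (K' := (EfSet β ∪ (NfSet β k ∪ {cf k})) ∪ TfSet β k) (by
      rintro f (hf | hf)
      · exact Or.inr hf
      · exact Or.inl (Or.inr (Or.inr hf))) le_rfl subset_rfl
  have h12 := h1.trans h2
  have h3 := (der_Nf_succ β hm k hk).mono
    (K' := (EfSet β ∪ (NfSet β k ∪ {cf k})) ∪ (TfSet β k ∪ ({Qf β k} ∪ {cf (k + 1)}))) (by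
      rintro f (hf | hf)
      · exact Or.inr (Or.inl hf)
      · exact Or.inr (Or.inr (Or.inl hf))) le_rfl subset_rfl
  have h := h12.trans h3
  intro G hG
  obtain ⟨G', c', hc', hr, hav⟩ := h G hG
  refine ⟨G', c', hc'.trans (by unfold roundCost; omega), hr, ?_⟩
  rintro f (hf | hf | hf | hf)
  · exact hav f (Or.inl (Or.inr (Or.inl hf)))
  · exact hr.av (hG f (Or.inl hf))
  · exact hav f (Or.inr hf)
  · exact hav f (Or.inl (Or.inr (Or.inr hf)))

lemma der_upto (k : ℕ) (hk : k + 1 ≤ m) :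
    Der (SmallVal (m := m) (n := n)) ∅ (m * m + k * roundCost m)
      (EfSet β ∪ (NfSet β k ∪ {cf k})) := by
  induction k with
  | zero =>
    intro G hG
    obtain ⟨G', c', hc', hr, hav⟩ := der_EfSet β hm G hG
    refine ⟨G', c', hc'.trans (by omega), hr, ?_⟩
    rintro f (hf | ⟨i, j, rfl⟩ | hf)
    · exact hav f hf
    · by_cases hij : i = j
      · right; right; left
        ext x
        subst hij
        simp [Nf, flN]
      · right; left
        ext x
        simp [Nf, flN, one_apply_ne hij]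
    · rw [Set.mem_singleton_iff.1 hf]
      right; left
      ext x
      simp [cf]
  | succ k ih =>
    have h1 := ih (by omega)
    have h2 := (der_round β hm k (by omega)).mono
      (K' := ∅ ∪ (EfSet β ∪ (NfSet β k ∪ {cf k}))) Set.subset_union_right le_rfl subset_rfl
    have h := h1.trans h2
    refine h.mono subset_rfl ?_ ?_
    · ring_nf; exact le_rfl
    · intro f hf
      exact Or.inr (Or.inr hf)

/-- The minor of the columns `β` as a function of the input. -/
noncomputable def Df : Fn (Idx m n) :=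
  fun x => dd (wmat (fun i j => x (Sum.inl (i, j))) (fun i => x (Sum.inr i))) β

lemma Df_eq (x : Idx m n → ℝ) : Df β x = 0 - Qf β (m - 1) x := by
  have h := det_eq_flN (Matrix.of fun i j => wmat (fun i j => x (Sum.inl (i, j)))
    (fun i => x (Sum.inr i)) i (β j)) hm
  unfold Df dd
  rw [← h, zero_sub]
  congr 1
  unfold Qf
  have e1 : ((m - 1 + 1 : ℕ) : ℝ) = m := by
    congr 1
    omega
  rw [e1]
  congr 1

/-- The cost of one minor. -/
def minorCost (m : ℕ) : ℕ := m * m + (m - 1) * roundCost m + (roundCost m + 1)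

theorem der_Df : Der (SmallVal (m := m) (n := n)) ∅ (minorCost m) {Df β} := by
  have h1 := der_upto β hm (m - 1) (by omega)
  have h2 := (der_round β hm (m - 1) (by omega)).mono
      (K' := ∅ ∪ (EfSet β ∪ (NfSet β (m - 1) ∪ {cf (m - 1)}))) Set.subset_union_right le_rfl
      (S' := {Qf β (m - 1)}) (fun f hf => Or.inl hf)
  have h12 := h1.trans h2
  have h3 : Der (SmallVal (m := m) (n := n)) (∅ ∪ ((EfSet β ∪ (NfSet β (m - 1) ∪
      {cf (m - 1)})) ∪ {Qf β (m - 1)})) 1 {Df β} := by
    have e : Df β = fun x => Op.sub.eval ((fun _ => 0 : Fn (Idx m n)) x)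
        (Qf β (m - 1) x) := by
      ext x
      rw [Df_eq β hm]
      rfl
    rw [e]
    refine Der.op Op.sub _ _ (fun G _ => Or.inr (Or.inl rfl))
      (fun G hG => hG _ (Or.inr (Or.inr rfl))) (by simp) ?_
    intro D H X hD hDH hX
    have hN := ib_Nf β hD hDH hX hm (m - 1) (by omega)
    have h1 := (IB.zero ((m - 1 + 1).factorial * D ^ (m - 1 + 1)) 0).sub
      (ib_Qf β hD hDH hX (m - 1) hN)
    rw [zero_add] at h1
    have hb := big_E hD hDH hm (m - 1 + 1) (m - 1 + 1) (by omega) (by omega)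
    exact ⟨_, hb.1, hb.2, h1.mono (big_B hD hDH hm (m - 1) (by omega))⟩
  have h := h12.trans h3
  exact h.mono subset_rfl (by unfold minorCost; omega) Set.subset_union_right

end Program

end Pool.Agent.H558R2
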