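import Pool.Agent.H558R2.DetSlp

set_option autoImplicit false

/-!
# Assembly
-/

namespace Pool.Agent.H558R2

open Matrix

variable {m n : ℕ}

lemma size_le_of_lt {a k : ℕ} (h : a ≤ 2 ^ k) : Nat.size a ≤ k + 1 := by
  rw [Nat.size_le]
  calc a ≤ 2 ^ k := h
    _ < 2 ^ (k + 1) := Nat.pow_lt_pow_right (by omega) (by omega)

lemma bitLength_of_IB {v : ℝ} {E B k : ℕ} (h : IB v E B) (hE : 1 ≤ E) (hE' : E ≤ 2 ^ k)
    (hB : B ≤ 2 ^ k) : ∃ q : ℚ, (q : ℝ) = v ∧ bitLength q ≤ 2 * k + 3 := by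
  obtain ⟨N, h1, h2⟩ := h
  have hE0 : (E : ℝ) ≠ 0 := by positivity
  refine ⟨(N : ℚ) / (E : ℚ), ?_, ?_⟩
  · push_cast
    rw [← h1]
    field_simp
  · have hd : ((N : ℚ) / (E : ℚ)).den ∣ E := by
      have := Rat.den_dvd N E
      rw [Rat.divInt_eq_div] at this
      exact_mod_cast this
    have hn : ((N : ℚ) / (E : ℚ)).num.natAbs ≤ N.natAbs := by
      have h3 : ((N : ℚ) / (E : ℚ)).num ∣ N := by
        have := Rat.num_dvd N (b := (E : ℤ)) (by exact_mod_cast (by omega : E ≠ 0))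
        rw [Rat.divInt_eq_div] at this
        exact_mod_cast this
      rcases eq_or_ne N 0 with h0 | h0
      · simp [h0]
      · exact Int.natAbs_le_of_dvd_ne_zero h3 h0
    have h4 : N.natAbs ≤ 2 ^ k := by
      have h5 : (N.natAbs : ℤ) ≤ B := by
        rw [Int.natCast_natAbs]
        exact h2
      exact (by exact_mod_cast h5 : N.natAbs ≤ B).trans hB
    have h6 : Nat.size ((N : ℚ) / (E : ℚ)).num.natAbs ≤ k + 1 := size_le_of_lt (hn.trans h4)
    have h7 : Nat.size ((N : ℚ) / (E : ℚ)).den ≤ k + 1 :=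
      size_le_of_lt ((Nat.le_of_dvd hE hd).trans hE')
    unfold bitLength
    omega

lemma le_two_pow_size (a : ℕ) : a ≤ 2 ^ Nat.size a := (Nat.lt_size_self a).le

/-- All entries of a rational instance as a family. -/
def ratInput (A : Matrix (Fin m) (Fin n) ℚ) (b : Fin m → ℚ) : Idx m n → ℚ
  | .inl p => A p.1 p.2
  | .inr i => b i

lemma inputLength_eq (A : Matrix (Fin m) (Fin n) ℚ) (b : Fin m → ℚ) :
    inputLength A b = ∑ k, bitLength (ratInput A b k) := by
  rw [Fintype.sum_sum_type, Fintype.sum_prod_type]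
  rfl

lemma lpInput_rat (A : Matrix (Fin m) (Fin n) ℚ) (b : Fin m → ℚ) :
    lpInput (fun i j => ((A i j : ℚ) : ℝ)) (fun i => ((b i : ℚ) : ℝ)) =
      fun k => ((ratInput A b k : ℚ) : ℝ) := by
  ext k
  rcases k with p | i <;> rfl

/-- Values of small functions on rational inputs have small encoding length. -/
lemma small_bitLength (hm : 1 ≤ m) (f : Fn (Idx m n)) (hf : SmallVal f)
    (A : Matrix (Fin m) (Fin n) ℚ) (b : Fin m → ℚ) :
    ∃ q : ℚ, (q : ℝ) = f (lpInput (fun i j => ((A i j : ℚ) : ℝ)) (fun i => ((b i : ℚ) : ℝ))) ∧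
      bitLength q ≤ 30 * inputLength A b ^ 2 := by
  set r := ratInput A b with hr
  set ℓ := inputLength A b with hℓ
  have hℓ' : ℓ = ∑ k, bitLength (r k) := inputLength_eq A b
  have hmℓ : m ≤ ℓ := by
    have h1 : ∀ i : Fin m, 1 ≤ bitLength (b i) := fun i => by unfold bitLength; omega
    have h2 : m ≤ ∑ i, bitLength (b i) := by
      calc m = ∑ _i : Fin m, 1 := by simp
        _ ≤ ∑ i, bitLength (b i) := Finset.sum_le_sum fun i _ => h1 i
    rw [hℓ, inputLength]
    omega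
  set D := ∏ k, (r k).den with hD
  have hDpos : 1 ≤ D := Finset.prod_pos fun k _ => (r k).den_pos
  have hDle : D ≤ 2 ^ ℓ := by
    calc D ≤ ∏ k, 2 ^ bitLength (r k) := by
          apply Finset.prod_le_prod' 
          intro k _
          refine (le_two_pow_size _).trans (Nat.pow_le_pow_right (by omega) ?_)
          unfold bitLength
          omega
      _ = 2 ^ ℓ := by rw [Finset.prod_pow_eq_pow_sum, hℓ']
  have hdvd : ∀ k, (r k).den ∣ D := fun k => Finset.dvd_prod_of_mem _ (Finset.mem_univ k)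
  set X : Idx m n → ℤ := fun k => (r k).num * (D / (r k).den : ℕ) with hX
  have hXval : ∀ k, ((X k : ℤ) : ℝ) / D = ((r k : ℚ) : ℝ) := by
    intro k
    obtain ⟨c, hc⟩ := hdvd k
    have hdk : 0 < (r k).den := (r k).den_pos
    have hdiv : D / (r k).den = c := by
      rw [hc, Nat.mul_div_cancel_left _ hdk]
    have hD0 : (D : ℝ) ≠ 0 := by positivity
    have hc0 : (c : ℝ) ≠ 0 := by
      intro h
      have : c = 0 := by exact_mod_cast h
      rw [this, mul_zero] at hc
      omega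
    have hdk' : ((r k).den : ℝ) ≠ 0 := by positivity
    have e : ((r k : ℚ) : ℝ) = ((r k).num : ℝ) / ((r k).den : ℝ) := by
      conv_lhs => rw [← Rat.num_div_den (r k)]
      push_cast
      rfl
    rw [e]
    simp only [hX]
    rw [hdiv]
    have hDc : (D : ℝ) = (r k).den * c := by exact_mod_cast hc
    rw [hDc]
    push_cast
    field_simp
  have hXle : ∀ k, |X k| ≤ ((4 ^ ℓ : ℕ) : ℤ) := by
    intro k
    simp only [hX]
    rw [abs_mul]
    have h1 : |(r k).num| ≤ ((2 ^ ℓ : ℕ) : ℤ) := by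
      rw [← Int.natCast_natAbs]
      have h2 : bitLength (r k) ≤ ℓ := by
        rw [hℓ']
        exact Finset.single_le_sum (f := fun k => bitLength (r k)) (fun _ _ => Nat.zero_le _)
          (Finset.mem_univ k)
      have h3 : (r k).num.natAbs ≤ 2 ^ ℓ :=
        (le_two_pow_size _).trans (Nat.pow_le_pow_right (by omega) (by
          unfold bitLength at h2; omega))
      exact_mod_cast h3
    have h2 : |((D / (r k).den : ℕ) : ℤ)| ≤ ((2 ^ ℓ : ℕ) : ℤ) := by
      rw [abs_of_nonneg (by positivity)]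
      exact_mod_cast (Nat.div_le_self _ _).trans hDle
    calc |(r k).num| * |((D / (r k).den : ℕ) : ℤ)| ≤ ((2 ^ ℓ : ℕ) : ℤ) * ((2 ^ ℓ : ℕ) : ℤ) :=
          mul_le_mul h1 h2 (abs_nonneg _) (by positivity)
      _ = ((4 ^ ℓ : ℕ) : ℤ) := by
          rw [← Nat.cast_mul, ← mul_pow]
          norm_num
  have hDH : D ≤ 4 ^ ℓ := hDle.trans (Nat.pow_le_pow_left (by omega) _)
  obtain ⟨E, hE1, hE2, hIB⟩ := hf D (4 ^ ℓ) X hDpos hDH hXle
  have hbig : big m (4 ^ ℓ) ≤ 2 ^ ((5 * ℓ + 1) * (ℓ + 1)) := by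
    unfold big
    rw [pow_mul]
    have h1 : 2 * m ^ 3 * 4 ^ ℓ ≤ 2 ^ (5 * ℓ + 1) := by
      have h2 : m ^ 3 ≤ 2 ^ (3 * ℓ) := by
        rw [mul_comm, pow_mul]
        exact Nat.pow_le_pow_left (hmℓ.trans Nat.lt_two_pow_self.le) 3
      calc 2 * m ^ 3 * 4 ^ ℓ ≤ 2 * 2 ^ (3 * ℓ) * 4 ^ ℓ := by gcongr
        _ = 2 ^ (5 * ℓ + 1) := by
            have h4 : (4 : ℕ) ^ ℓ = 2 ^ (2 * ℓ) := by rw [pow_mul]; norm_num
            rw [h4]
            ring
    calc (2 * m ^ 3 * 4 ^ ℓ) ^ (m + 1) ≤ (2 ^ (5 * ℓ + 1)) ^ (m + 1) :=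
          Nat.pow_le_pow_left h1 _
      _ ≤ (2 ^ (5 * ℓ + 1)) ^ (ℓ + 1) :=
          Nat.pow_le_pow_right (Nat.pow_pos (by omega)) (by omega)
  obtain ⟨q, hq1, hq2⟩ := bitLength_of_IB hIB hE1 (hE2.trans hbig) hbig
  refine ⟨q, ?_, hq2.trans ?_⟩
  · rw [hq1, lpInput_rat]
    congr 1
    ext k
    exact hXval k
  · have h1 : 1 ≤ ℓ := hm.trans hmℓ
    nlinarith

/-- **Polynomially deep algebraic computation trees for linear feasibility.** -/
theorem main (m n : ℕ) (hm : 1 ≤ m) (hn : 1 ≤ n) : ∃ T : CompTree ((Fin m × Fin n) ⊕ Fin m),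
    (∀ (A : Matrix (Fin m) (Fin n) ℝ) (b : Fin m → ℝ), ∃ ans nums steps,
      T.run (lpInput A b) [] = some (ans, nums, steps) ∧
      (ans = true ↔ ∃ x : Fin n → ℝ, b ≤ A.mulVec x) ∧ steps ≤ 600 * (m + n) ^ 10) ∧
    (∀ (A : Matrix (Fin m) (Fin n) ℚ) (b : Fin m → ℚ) (ans : Bool) (nums : List ℝ) (steps : ℕ),
      T.run (lpInput (fun i j => ((A i j : ℚ) : ℝ)) (fun i => ((b i : ℚ) : ℝ))) [] =
        some (ans, nums, steps) →
      ∀ v ∈ nums, ∃ q : ℚ, (q : ℝ) = v ∧ bitLength q ≤ 30 * inputLength A b ^ 2) := by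
  classical
  obtain ⟨T, hT, hT'⟩ := exists_queryTree m n
  obtain ⟨T', hT2⟩ := QT.toTree (P := SmallVal (m := m) (n := n)) (fun β => Df β) (minorCost m)
    (fun β => der_Df β hm) T [] (by simp)
  refine ⟨T', ?_, ?_⟩
  · intro A b
    obtain ⟨ans, nums, steps, h1, h2, h3, -⟩ := hT2 (lpInput A b)
    refine ⟨ans, nums, steps, h1, ?_, ?_⟩
    · have e : (fun β => SignType.sign (Df β (lpInput A b))) = pat (m := m) (n := n) (A, b) := rfl
      rw [h2, e, hT' (A, b), decide_eq_true_eq]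
      unfold Feas
      refine exists_congr fun x => ?_
      rw [Pi.le_def]
      rfl
    · refine h3.trans ?_
      set N := m + n with hN
      have hN2 : 2 ≤ N := by omega
      have hmN : m ≤ N := by omega
      have hs : 2 * m + 2 * n + 3 ≤ 4 * N := by omega
      have hP : pexp m n + 1 ≤ 6 * N ^ 4 := by
        unfold pexp
        have a1 : (m + (n + n) + 1) * m + m + 3 ≤ 5 * N ^ 2 := by
          have b1 : (m + (n + n) + 1) * m ≤ (3 * N) * N := Nat.mul_le_mul (by omega) hmN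
          nlinarith
        have a2 : m * n + m ≤ N ^ 2 := by
          have : m * (n + 1) ≤ N * N := Nat.mul_le_mul hmN (by omega)
          nlinarith
        have a3 := Nat.mul_le_mul a1 a2
        have a4 : 1 ≤ N ^ 4 := Nat.one_le_pow _ _ (by omega)
        calc ((m + (n + n) + 1) * m + m + 3) * (m * n + m) + 1 ≤ 5 * N ^ 2 * N ^ 2 + N ^ 4 :=
              Nat.add_le_add a3 a4
          _ = 6 * N ^ 4 := by ring
      have hdepth : T.depth ≤ 96 * N ^ 6 := by
        refine hT.trans ?_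
        calc (2 * m + 2 * n + 3) * ((2 * m + 2 * n + 3) * (pexp m n + 1))
            ≤ (4 * N) * ((4 * N) * (6 * N ^ 4)) :=
              Nat.mul_le_mul hs (Nat.mul_le_mul hs hP)
          _ = 96 * N ^ 6 := by ring
      have hN3 : N + 2 ≤ N ^ 3 := by
        have : 4 * N ≤ N ^ 3 := by
          calc 4 * N ≤ N ^ 2 * N := Nat.mul_le_mul_right _ (by nlinarith)
            _ = N ^ 3 := by ring
        omega
      have hN23 : N ^ 2 ≤ N ^ 3 := Nat.pow_le_pow_right (by omega) (by omega)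
      have hrc : roundCost m ≤ 4 * N ^ 3 := by
        unfold roundCost
        have c1 : m * m * (2 * m) ≤ 2 * N ^ 3 := by
          calc m * m * (2 * m) ≤ N * N * (2 * N) :=
                Nat.mul_le_mul (Nat.mul_le_mul hmN hmN) (by omega)
            _ = 2 * N ^ 3 := by ring
        have c2 : m * m ≤ N ^ 2 := by
          calc m * m ≤ N * N := Nat.mul_le_mul hmN hmN
            _ = N ^ 2 := by ring
        omega
      have hmc : minorCost m + 1 ≤ 6 * N ^ 4 := by
        unfold minorCost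
        have c1 : (m - 1) * roundCost m + roundCost m = m * roundCost m := by
          obtain ⟨m', rfl⟩ : ∃ m', m = m' + 1 := ⟨m - 1, by omega⟩
          rw [Nat.add_sub_cancel]
          ring
        have c2 : m * roundCost m ≤ 4 * N ^ 4 := by
          calc m * roundCost m ≤ N * (4 * N ^ 3) := Nat.mul_le_mul hmN hrc
            _ = 4 * N ^ 4 := by ring
        have c5 : m * m ≤ N ^ 4 := by
          calc m * m ≤ N * N := Nat.mul_le_mul hmN hmN
            _ = N ^ 2 := by ring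
            _ ≤ N ^ 4 := Nat.pow_le_pow_right (by omega) (by omega)
        have c6 : 2 ≤ N ^ 4 := by
          calc 2 ≤ N := hN2
            _ = N ^ 1 := by ring
            _ ≤ N ^ 4 := Nat.pow_le_pow_right (by omega) (by omega)
        omega
      calc T.depth * (minorCost m + 1) ≤ (96 * N ^ 6) * (6 * N ^ 4) := Nat.mul_le_mul hdepth hmc
        _ = 576 * N ^ 10 := by ring
        _ ≤ 600 * N ^ 10 := Nat.mul_le_mul_right _ (by omega)
  · intro A b ans nums steps hrun v hv
    obtain ⟨ans', nums', steps', h1, -, -, h4⟩ :=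
      hT2 (lpInput (fun i j => ((A i j : ℚ) : ℝ)) (fun i => ((b i : ℚ) : ℝ)))
    have e : some (ans, nums, steps) = some (ans', nums', steps') := by
      rw [← hrun]
      exact h1
    simp only [Option.some.injEq, Prod.mk.injEq] at e
    obtain ⟨-, rfl, -⟩ := e
    obtain ⟨g, hg, rfl⟩ := h4 v hv
    exact small_bitLength hm g hg A b

end Pool.Agent.H558R2
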