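import Pool.Agent.H558R2.Bland

set_option autoImplicit false

/-!
# Linear feasibility and certificates
-/

namespace Pool.Agent.H558R2

open Matrix

variable {m n : ℕ}

/-- Column types: slack columns, the columns of `-A` and the columns of `A`. -/
abbrev Col (m n : ℕ) : Type := Fin m ⊕ (Fin n ⊕ Fin n)

/-- An enumeration of the columns. -/
def colEquiv (m n : ℕ) : Col m n ≃ Fin (m + (n + n)) :=
  (Equiv.sumCongr (Equiv.refl _) finSumFinEquiv).trans finSumFinEquiv

/-- The entry in row `r` of a column. -/
def colEntry {R : Type*} [Ring R] (A : Fin m → Fin n → R) (r : Fin m) : Col m n → R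
  | Sum.inl r' => if r = r' then 1 else 0
  | Sum.inr (Sum.inl c) => - A r c
  | Sum.inr (Sum.inr c) => A r c

/-- The matrix `[I | -A | A]` with the right-hand side `-b` as the column `none`. -/
def wmat {R : Type*} [Ring R] (A : Fin m → Fin n → R) (b : Fin m → R) :
    Matrix (Fin m) (Option (Fin (m + (n + n)))) R :=
  fun r x => match x with
    | none => - b r
    | some k => colEntry A r ((colEquiv m n).symm k)

/-- The basis consisting of the slack columns. -/
def slackBasis (m n : ℕ) : Fin m → Fin (m + (n + n)) := fun r => colEquiv m n (Sum.inl r)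

lemma dd_slack (A : Fin m → Fin n → ℝ) (b : Fin m → ℝ) :
    dd (wmat A b) (fun j => some (slackBasis m n j)) = 1 := by
  unfold dd
  have : (Matrix.of fun i j => wmat A b i (some (slackBasis m n j))) = (1 : Matrix _ _ ℝ) := by
    ext i j
    simp [wmat, slackBasis, colEntry, Matrix.one_apply]
  rw [this, det_one]

/-- The contribution of a column to the variable `x`. -/
def xi : Col m n → Fin n → ℝ
  | Sum.inl _ => 0
  | Sum.inr (Sum.inl c) => Pi.single c 1
  | Sum.inr (Sum.inr c) => - Pi.single c 1

lemma xi_spec (A : Fin m → Fin n → ℝ) (r : Fin m) (k : Col m n) :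
    - colEntry A r k ≤ ∑ c, A r c * xi k c := by
  rcases k with r' | c | c
  · simp only [colEntry, xi, Pi.zero_apply, mul_zero, Finset.sum_const_zero]
    split_ifs <;> norm_num
  · simp [colEntry, xi, Pi.single_apply]
  · simp [colEntry, xi, Pi.single_apply]

/-- Soundness of feasibility certificates. -/
lemma feasible_of_cert (A : Fin m → Fin n → ℝ) (b : Fin m → ℝ) (β : Fin m → Fin (m + (n + n)))
    (h0 : dd (wmat A b) (fun j => some (β j)) ≠ 0)
    (h1 : ∀ j, 0 ≤ dd (wmat A b) (Function.update (fun j => some (β j)) j none) *
      dd (wmat A b) (fun j => some (β j))) :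
    ∃ x : Fin n → ℝ, ∀ i, b i ≤ ∑ c, A i c * x c := by
  set w := wmat A b with hw
  set d := dd w (fun j => some (β j)) with hd
  set y : Fin m → ℝ := fun j => dd w (Function.update (fun j => some (β j)) j none) / d with hy
  have hy0 : ∀ j, 0 ≤ y j := by
    intro j
    have : y j = dd w (Function.update (fun j => some (β j)) j none) * d / (d * d) := by
      rw [hy]; field_simp
    rw [this]
    exact div_nonneg (h1 j) (mul_self_nonneg d)
  refine ⟨fun c => ∑ j, y j * xi ((colEquiv m n).symm (β j)) c, fun i => ?_⟩
  have e1 : ∑ c, A i c * ∑ j, y j * xi ((colEquiv m n).symm (β j)) c =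
      ∑ j, y j * ∑ c, A i c * xi ((colEquiv m n).symm (β j)) c := by
    simp only [Finset.mul_sum]
    rw [Finset.sum_comm]
    refine Finset.sum_congr rfl fun j _ => Finset.sum_congr rfl fun c _ => ?_
    ring
  rw [e1]
  have e2 : ∑ j, y j * (- colEntry A i ((colEquiv m n).symm (β j))) ≤
      ∑ j, y j * ∑ c, A i c * xi ((colEquiv m n).symm (β j)) c :=
    Finset.sum_le_sum fun j _ => mul_le_mul_of_nonneg_left (xi_spec A i _) (hy0 j)
  refine le_trans (le_of_eq ?_) e2
  have e3 := sum_dd w (fun j => some (β j)) none i
  have e4 : w i none = - b i := rfl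
  have e5 : ∀ j, w i (some (β j)) = colEntry A i ((colEquiv m n).symm (β j)) := fun j => rfl
  simp only [e5] at e3
  rw [e4, ← hd] at e3
  have e6 : b i = - ((d * -b i) / d) := by
    field_simp
  rw [e6, e3, Finset.sum_div, ← Finset.sum_neg_distrib]
  refine Finset.sum_congr rfl fun j _ => ?_
  simp only [hy]
  ring

/-- Soundness of infeasibility certificates. -/
lemma infeasible_of_cert (A : Fin m → Fin n → ℝ) (b : Fin m → ℝ)
    (β : Fin m → Fin (m + (n + n))) (i : Fin m)
    (h1 : dd (wmat A b) (Function.update (fun j => some (β j)) i none) *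
      dd (wmat A b) (fun j => some (β j)) < 0)
    (h2 : ∀ k, 0 ≤ dd (wmat A b) (Function.update (fun j => some (β j)) i (some k)) *
      dd (wmat A b) (fun j => some (β j))) :
    ¬ ∃ x : Fin n → ℝ, ∀ i, b i ≤ ∑ c, A i c * x c := by
  rintro ⟨x, hx⟩
  set w := wmat A b with hw
  set d := dd w (fun j => some (β j)) with hd
  -- the nonnegative solution of the equality system
  set y : Col m n → ℝ := fun k => match k with
    | Sum.inl r => ∑ c, A r c * x c - b r
    | Sum.inr (Sum.inl c) => max (x c) 0
    | Sum.inr (Sum.inr c) => max (- x c) 0 with hy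
  have hy0 : ∀ k, 0 ≤ y k := by
    rintro (r | c | c)
    · exact sub_nonneg.2 (hx r)
    · exact le_max_right _ _
    · exact le_max_right _ _
  have hmax : ∀ c, max (x c) 0 - max (- x c) 0 = x c := by
    intro c
    rcases le_total 0 (x c) with h | h
    · rw [max_eq_left h, max_eq_right (by linarith)]; ring
    · rw [max_eq_right h, max_eq_left (by linarith)]; ring
  have heq : ∀ r, ∑ k, colEntry A r k * y k = - b r := by
    intro r
    rw [Fintype.sum_sum_type, Fintype.sum_sum_type]
    simp only [colEntry, hy, ite_mul, one_mul, zero_mul, Finset.sum_ite_eq, Finset.mem_univ,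
      if_true]
    have : ∑ c, A r c * x c = ∑ c, A r c * max (x c) 0 - ∑ c, A r c * max (- x c) 0 := by
      rw [← Finset.sum_sub_distrib]
      refine Finset.sum_congr rfl fun c _ => ?_
      rw [← mul_sub, hmax]
    rw [this]
    simp only [neg_mul, Finset.sum_neg_distrib]
    ring
  have hlin : (fun r => w r none) = ∑ k, y k • (fun r => w r (some (colEquiv m n k))) := by
    ext r
    simp only [Finset.sum_apply, Pi.smul_apply, smul_eq_mul]
    have e1 : ∀ k, w r (some (colEquiv m n k)) = colEntry A r k := by
      intro k
      simp [hw, wmat]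
    simp only [e1]
    have e2 : w r none = - b r := rfl
    rw [e2, ← heq r]
    exact Finset.sum_congr rfl fun k _ => mul_comm _ _
  have h3 := congrArg (fun v => cramer (Matrix.of fun r j => w r (some (β j))) v i) hlin
  simp only [map_smul, map_sum, Pi.smul_apply, Finset.sum_apply, smul_eq_mul] at h3
  rw [← dd_update w (fun j => some (β j)) i none] at h3
  have h4 : ∀ k, cramer (Matrix.of fun r j => w r (some (β j)))
      (fun r => w r (some (colEquiv m n k))) i =
      dd w (Function.update (fun j => some (β j)) i (some (colEquiv m n k))) := by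
    intro k
    rw [dd_update]
  simp only [h4] at h3
  rw [h3, Finset.sum_mul] at h1
  have : 0 ≤ ∑ k, y k * dd w (Function.update (fun j => some (β j)) i
      (some (colEquiv m n k))) * d := by
    apply Finset.sum_nonneg
    intro k _
    rw [mul_assoc]
    exact mul_nonneg (hy0 k) (h2 _)
  linarith

/-- The inputs of the linear feasibility problem. -/
abbrev Inp (m n : ℕ) : Type := (Fin m → Fin n → ℝ) × (Fin m → ℝ)

/-- The feasibility predicate. -/
def Feas (a : Inp m n) : Prop := ∃ x : Fin n → ℝ, ∀ i, a.2 i ≤ ∑ c, a.1 i c * x c

/-- The sign pattern of an input. -/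
noncomputable def pat (a : Inp m n) :
    (Fin m → Option (Fin (m + (n + n)))) → SignType :=
  chi (fun a : Inp m n => wmat a.1 a.2) a

open Classical in
/-- Every locally realizable sign assignment has a certificate. -/
theorem exists_cert (s : ℕ) (hs : m + (m + (n + n)) + 3 ≤ s)
    (σ : (Fin m → Option (Fin (m + (n + n)))) → SignType)
    (hloc : LocReal (pat (m := m) (n := n)) s σ) :
    ∃ D : Finset (Fin m → Option (Fin (m + (n + n)))), D.card ≤ s ∧
      ∃ ans : Bool, ∀ a : Inp m n, (∀ q ∈ D, pat a q = σ q) → (decide (Feas a) = ans) := by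
  have h0 : σ (fun j => some (slackBasis m n j)) ≠ 0 := by
    obtain ⟨a, ha⟩ := hloc {fun j => some (slackBasis m n j)} (by simp; omega)
    rw [← ha _ (by simp)]
    unfold pat chi
    rw [dd_slack]
    simp
  obtain ⟨β, hβ, -, hcase⟩ := exists_terminal (w := fun a : Inp m n => wmat a.1 a.2) hs hloc
    (m + (n + n)) le_rfl _ h0
  have hsg : ∀ a : Inp m n, ∀ i x, pat a (Function.update (fun j => some (β j)) i x) =
        σ (Function.update (fun j => some (β j)) i x) →
      pat a (fun j => some (β j)) = σ (fun j => some (β j)) →
      tau σ β i x = SignType.sign (dd (wmat a.1 a.2) (Function.update (fun j => some (β j)) i x) *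
        dd (wmat a.1 a.2) (fun j => some (β j))) := by
    intro a i x h1 h2
    unfold tau
    rw [sign_mul, ← h1, ← h2]
    rfl
  have hne : ∀ a : Inp m n, pat a (fun j => some (β j)) = σ (fun j => some (β j)) →
      dd (wmat a.1 a.2) (fun j => some (β j)) ≠ 0 := by
    intro a h h'
    apply hβ
    rw [← h]
    unfold pat chi
    rw [h', sign_zero]
  rcases hcase with hF | ⟨i, -, hi2, hi3⟩
  · refine ⟨{fun j => some (β j)} ∪
      Finset.univ.image (fun j => Function.update (fun j => some (β j)) j none), ?_, true, ?_⟩
    · refine (Finset.card_union_le _ _).trans ?_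
      have c1 : (Finset.univ.image (fun j => Function.update (fun j => some (β j)) j
        (none : Option (Fin (m + (n + n)))))).card ≤ m := Finset.card_image_le.trans (by simp)
      simp only [Finset.card_singleton]
      omega
    · intro a ha
      rw [decide_eq_true_eq]
      have ha0 := ha (fun j => some (β j)) (by simp)
      apply feasible_of_cert a.1 a.2 β (hne a ha0)
      intro j
      have := hF j (β j).2
      rw [hsg a j none (ha _ (by simp)) ha0, Ne, sign_eq_neg_one_iff, not_lt] at this
      exact this
  · refine ⟨({fun j => some (β j)} ∪ {Function.update (fun j => some (β j)) i none}) ∪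
      Finset.univ.image (fun k => Function.update (fun j => some (β j)) i (some k)), ?_,
      false, ?_⟩
    · refine (Finset.card_union_le _ _).trans ?_
      have c1 : (Finset.univ.image (fun k => Function.update (fun j => some (β j)) i
        (some k))).card ≤ m + (n + n) := Finset.card_image_le.trans (by simp)
      have c2 := Finset.card_union_le {fun j => some (β j)}
        {Function.update (fun j => some (β j)) i (none : Option (Fin (m + (n + n))))}
      simp only [Finset.card_singleton] at c2
      omega
    · intro a ha
      rw [decide_eq_false_iff_not]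
      have ha0 := ha (fun j => some (β j)) (by simp)
      apply infeasible_of_cert a.1 a.2 β i
      · rw [hsg a i none (ha _ (by simp)) ha0, sign_eq_neg_one_iff] at hi2
        exact hi2
      · intro k
        have := hi3 k k.2
        rw [hsg a i (some k) (ha _ (by simp)) ha0, Ne, sign_eq_neg_one_iff, not_lt] at this
        exact this

end Pool.Agent.H558R2
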