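import Pool.Agent.H626R2.Loc.Defs

set_option autoImplicit false

namespace Pool.Agent.H626R2.Loc

open MvPolynomial

/-- V11. -/
theorem parallel_of_units {M Ω : Type} [Field M] [Field Ω] [Algebra M Ω] (O : ValuationSubring Ω)
    (hM : ∀ c : M, algebraMap M Ω c ∈ O) {r : ℕ} (g : MvPolynomial (Fin r) O) (hg : g ≠ 0)
    (hunit : ∀ (s : Finset (Fin r →₀ ℕ)) (c : (Fin r →₀ ℕ) → M),
      ∑ m ∈ s, algebraMap M Ω (c m) * ((coeff m g : O) : Ω) ≠ 0 →
      O.valuation (∑ m ∈ s, algebraMap M Ω (c m) * ((coeff m g : O) : Ω)) = 1) :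
    letI : Algebra M (IsLocalRing.ResidueField O) := (resM O hM).toAlgebra
    Parallel M (MvPolynomial.map O.subtype g) (MvPolynomial.map (IsLocalRing.residue O) g) := by
  classical
  letI : Algebra M (IsLocalRing.ResidueField O) := (resM O hM).toAlgebra
  show Parallel M (MvPolynomial.map O.subtype g) (MvPolynomial.map (IsLocalRing.residue O) g)
  -- a basis of the span of the coefficients, chosen among the coefficients
  set S : Set Ω := (fun m => ((coeff m g : O) : Ω)) '' (g.support : Set (Fin r →₀ ℕ)) with hS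
  have hSfin : S.Finite := (g.support.finite_toSet).image _
  obtain ⟨B, hBS, hBspan, hBli⟩ := exists_linearIndependent M S
  have hBfin : B.Finite := hSfin.subset hBS
  haveI : Fintype B := hBfin.fintype
  obtain ⟨s, ⟨eqv⟩⟩ : ∃ s, Nonempty (Fin s ≃ B) := ⟨Fintype.card B, ⟨(Fintype.equivFin B).symm⟩⟩
  have hm : ∀ i : Fin s, ∃ m ∈ g.support, ((coeff m g : O) : Ω) = (eqv i : Ω) := by
    intro i
    obtain ⟨m, hm1, hm2⟩ := hBS (eqv i).2
    exact ⟨m, hm1, hm2⟩
  choose μ hμ1 hμ2 using hm
  let a : M →+* O := (algebraMap M Ω).codRestrict O.toSubring hM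
  have ha : ∀ c, ((a c : O) : Ω) = algebraMap M Ω c := fun c => rfl
  let E : Fin s → O := fun i => coeff (μ i) g
  have hEli : LinearIndependent M (fun i => ((E i : O) : Ω)) := by
    have h1 : (fun i => ((E i : O) : Ω)) = (fun b : B => (b : Ω)) ∘ eqv := by
      funext i
      exact hμ2 i
    rw [h1]
    exact hBli.comp _ eqv.injective
  have hμinj : Function.Injective μ := by
    intro i j hij
    have h1 : (fun i => ((E i : O) : Ω)) i = (fun i => ((E i : O) : Ω)) j := by
      show ((coeff (μ i) g : O) : Ω) = ((coeff (μ j) g : O) : Ω)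
      rw [hij]
    exact hEli.injective h1
  -- the coordinates
  have hcoord : ∀ m : Fin r →₀ ℕ, ∃ c : Fin s → M, ∑ i, c i • ((E i : O) : Ω) =
      ((coeff m g : O) : Ω) := by
    intro m
    have h1 : ((coeff m g : O) : Ω) ∈ Submodule.span M (Set.range fun i => ((E i : O) : Ω)) := by
      have h2 : Set.range (fun i => ((E i : O) : Ω)) = B := by
        have h3 : (fun i => ((E i : O) : Ω)) = (fun b : B => (b : Ω)) ∘ eqv := by
          funext i
          exact hμ2 i
        rw [h3, Set.range_comp, eqv.surjective.range_eq, Set.image_univ, Subtype.range_coe]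
      rw [h2, hBspan]
      by_cases hm : m ∈ g.support
      · exact Submodule.subset_span ⟨m, hm, rfl⟩
      · rw [MvPolynomial.notMem_support_iff.mp hm]
        exact Submodule.zero_mem _
    exact (Submodule.mem_span_range_iff_exists_fun M).mp h1
  choose c hc using hcoord
  have hc0 : ∀ m, m ∉ g.support → c m = 0 := by
    intro m hm
    have h1 := hc m
    rw [MvPolynomial.notMem_support_iff.mp hm] at h1
    funext i
    exact (Fintype.linearIndependent_iff.mp hEli) (c m) h1 i
  let y : Fin s → MvPolynomial (Fin r) M := fun i => ∑ m ∈ g.support, monomial m (c m i)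
  have hy : ∀ i m, coeff m (y i) = c m i := by
    intro i m
    show coeff m (∑ m ∈ g.support, monomial m (c m i)) = c m i
    rw [MvPolynomial.coeff_sum]
    simp only [MvPolynomial.coeff_monomial]
    rw [Finset.sum_ite_eq']
    split_ifs with h
    · rfl
    · rw [hc0 m h]; rfl
  have hgE : g = ∑ i, C (E i) * MvPolynomial.map a (y i) := by
    ext m
    rw [MvPolynomial.coeff_sum]
    have h1 : ((coeff m g : O) : Ω) = O.subtype (∑ i, coeff m (C (E i) * MvPolynomial.map a (y i))) := by
      rw [map_sum, ← hc m]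
      refine Finset.sum_congr rfl fun i _ => ?_
      rw [MvPolynomial.coeff_C_mul, MvPolynomial.coeff_map, hy, map_mul, Algebra.smul_def, mul_comm]
      rfl
    exact congrArg _ (Subtype.ext h1) |>.trans rfl
  have hmap : ∀ {R : Type} [CommRing R] (φ : O →+* R), MvPolynomial.map φ g =
      ∑ i, C (φ (E i)) * MvPolynomial.map (φ.comp a) (y i) := by
    intro R _ φ
    conv_lhs => rw [hgE]
    rw [map_sum]
    refine Finset.sum_congr rfl fun i _ => ?_
    rw [map_mul, MvPolynomial.map_C, MvPolynomial.map_map]
  refine ⟨s, fun i => ((E i : O) : Ω), fun i => IsLocalRing.residue O (E i), y, hEli, ?_, ?_, ?_, ?_⟩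
  · rw [Fintype.linearIndependent_iff]
    intro d hd
    have h1 : IsLocalRing.residue O (∑ i, a (d i) * E i) = 0 := by
      rw [map_sum, ← hd]
      refine Finset.sum_congr rfl fun i _ => ?_
      rw [map_mul, Algebra.smul_def]
      rfl
    have h2 : ((∑ i, a (d i) * E i : O) : Ω) = ∑ i, d i • ((E i : O) : Ω) := by
      show O.subtype _ = _
      rw [map_sum]
      refine Finset.sum_congr rfl fun i _ => ?_
      rw [map_mul, Algebra.smul_def]
      rfl
    have h3 : O.valuation ((∑ i, a (d i) * E i : O) : Ω) < 1 := by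
      rw [← ValuationSubring.valuation_lt_one_iff]
      exact (IsLocalRing.residue_eq_zero_iff _).mp h1
    have h4 : ∑ i, d i • ((E i : O) : Ω) = 0 := by
      by_contra hne
      let c' : (Fin r →₀ ℕ) → M := fun m => if h : ∃ i, μ i = m then d h.choose else 0
      have hc' : ∀ i, c' (μ i) = d i := by
        intro i
        have hex : ∃ j, μ j = μ i := ⟨i, rfl⟩
        show (if h : ∃ j, μ j = μ i then d h.choose else 0) = d i
        rw [dif_pos hex]
        exact congrArg d (hμinj hex.choose_spec)
      have h5 : ∑ m ∈ Finset.univ.image μ, algebraMap M Ω (c' m) * ((coeff m g : O) : Ω) =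
          ∑ i, d i • ((E i : O) : Ω) := by
        rw [Finset.sum_image (fun i _ j _ h => hμinj h)]
        refine Finset.sum_congr rfl fun i _ => ?_
        rw [hc', Algebra.smul_def]
      have h6 := hunit (Finset.univ.image μ) c' (by rw [h5]; exact hne)
      rw [h5, ← h2] at h6
      exact absurd h6 (ne_of_lt h3)
    exact (Fintype.linearIndependent_iff.mp hEli) d h4
  · by_contra hall
    push Not at hall
    apply hg
    rw [hgE]
    refine Finset.sum_eq_zero fun i _ => ?_
    rw [hall i, map_zero, mul_zero]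
  · exact hmap O.subtype
  · exact hmap (IsLocalRing.residue O)

end Pool.Agent.H626R2.Loc
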