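import Mathlib
import Pool.Agent.H922R2.OPC.Stubs

/-! MON: `f` is monic in `y`. -/

set_option autoImplicit false

open MvPolynomial

namespace Pool.Agent.H558R2.OPC_MON

open Pool.Agent.H922R2.OPC

variable {k : Type} [Field k]

/-- `k[x][y] → k[x, y]` -/
noncomputable def Phi (k : Type) [Field k] : Polynomial (Polynomial k) →+* B k :=
  Polynomial.eval₂RingHom (Polynomial.aeval (X 0 : B k)).toRingHom (X 1)

theorem Phi_surj (f : B k) : ∃ F, Phi k F = f := by
  induction f using MvPolynomial.induction_on with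
  | C a => exact ⟨Polynomial.C (Polynomial.C a), by simp [Phi, MvPolynomial.algebraMap_eq]⟩
  | add p q hp hq =>
    obtain ⟨F, hF⟩ := hp
    obtain ⟨G, hG⟩ := hq
    exact ⟨F + G, by rw [map_add, hF, hG]⟩
  | mul_X p i hp =>
    obtain ⟨F, hF⟩ := hp
    fin_cases i
    · exact ⟨F * Polynomial.C Polynomial.X, by rw [map_mul, hF]; simp [Phi]⟩
    · exact ⟨F * Polynomial.X, by rw [map_mul, hF]; simp [Phi]⟩

/-- `x ↦ t^(-n)` -/
noncomputable def io (k : Type) [Field k] (n : ℕ) : Polynomial k →+* L k :=
  (Polynomial.aeval (tp (-(n : ℤ)) : L k)).toRingHom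

theorem evY_Phi (n : ℕ) (F : Polynomial (Polynomial k)) :
    evY n (Phi k F) = F.map (io k n) := by
  have h : ((evY n : B k →ₐ[k] Polynomial (L k)).toRingHom).comp (Phi k) =
      Polynomial.mapRingHom (io k n) := by
    refine Polynomial.ringHom_ext' (Polynomial.ringHom_ext' ?_ ?_) ?_
    · ext a : 1
      simp [Phi, evY, io, MvPolynomial.algebraMap_eq]
    · simp [Phi, evY, io]
    · simp [Phi, evY, io]
  exact DFunLike.congr_fun h F

theorem algL (a : k) : algebraMap k (L k) a = HahnSeries.single 0 (Polynomial.C a) := by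
  rw [HahnSeries.algebraMap_apply', PowerSeries.algebraMap_apply, HahnSeries.ofPowerSeries_C,
    HahnSeries.C_apply]
  rfl

theorem tp_pow (n m : ℕ) : (tp (-(n : ℤ)) : L k) ^ m = tp (-((n * m : ℕ) : ℤ)) := by
  induction m with
  | zero => simp [tp]
  | succ m ih =>
    rw [pow_succ, ih]
    unfold tp
    rw [HahnSeries.single_mul_single, one_mul]
    have : -((n * m : ℕ) : ℤ) + -(n : ℤ) = -((n * (m + 1) : ℕ) : ℤ) := by
      push_cast
      ring
    rw [this]

theorem io_coeff (n : ℕ) (hn : 0 < n) (p : Polynomial k) (m : ℕ) :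
    (io k n p).coeff (-((n * m : ℕ) : ℤ)) = Polynomial.C (p.coeff m) := by
  induction p using Polynomial.induction_on' with
  | add p q hp hq =>
    rw [map_add, HahnSeries.coeff_add, hp, hq, Polynomial.coeff_add, map_add]
  | monomial j a =>
    have h1 : io k n (Polynomial.monomial j a) =
        HahnSeries.single (-((n * j : ℕ) : ℤ)) (Polynomial.C a) := by
      show Polynomial.aeval (tp (-(n : ℤ)) : L k) (Polynomial.monomial j a) = _
      rw [Polynomial.aeval_monomial, tp_pow, algL, tp,
        HahnSeries.single_mul_single, zero_add, mul_one]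
    rw [h1, Polynomial.coeff_monomial]
    by_cases hj : j = m
    · subst hj
      rw [HahnSeries.coeff_single_same, if_pos rfl]
    · rw [HahnSeries.coeff_single_of_ne, if_neg hj, map_zero]
      intro h
      apply hj
      have h2 : ((n * m : ℕ) : ℤ) = ((n * j : ℕ) : ℤ) := neg_injective h
      have h3 : n * m = n * j := by exact_mod_cast h2
      exact (Nat.eq_of_mul_eq_mul_left hn h3).symm

theorem io_inj (n : ℕ) (hn : 0 < n) : Function.Injective (io k n) := by
  intro p q h
  ext m
  have h1 := io_coeff n hn p m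
  rw [h, io_coeff n hn q m] at h1
  exact (Polynomial.C_injective h1).symm

theorem mon (k : Type) [Field k] [IsAlgClosed k] [CharZero k] : S_MON k := by
  intro n f φ ζ hOP
  obtain ⟨hn, hζ, h⟩ := hOP
  obtain ⟨F, rfl⟩ := Phi_surj f
  rw [evY_Phi] at h
  set Pi : Polynomial (L k) :=
    ∏ i ∈ Finset.range n, (Polynomial.X - Polynomial.C (rot (ζ ^ i) φ)) with hPi
  have hmonic : Pi.Monic := Polynomial.monic_prod_of_monic _ _ fun i _ =>
    Polynomial.monic_X_sub_C _
  have hdeg : Pi.natDegree = n := by
    rw [hPi, Polynomial.natDegree_prod_of_monic _ _ fun i _ => Polynomial.monic_X_sub_C _]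
    simp
  have hco : ∀ j, 1 ≤ j → io k n (F.coeff j) = Pi.coeff j := by
    intro j hj
    rw [← h, Polynomial.coeff_sub, Polynomial.coeff_map, Polynomial.coeff_C,
      if_neg (by omega), sub_zero]
  have hn1 : F.coeff n = 1 := by
    apply io_inj (k := k) n hn
    rw [hco n hn, map_one]
    have := hmonic.coeff_natDegree
    rwa [hdeg] at this
  have hlt : F.natDegree < n + 1 := by
    rw [Nat.lt_succ_iff, Polynomial.natDegree_le_iff_coeff_eq_zero]
    intro j hj
    apply io_inj (k := k) n hn
    rw [hco j (by omega), map_zero]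
    exact Polynomial.coeff_eq_zero_of_natDegree_lt (by omega)
  refine ⟨fun j => F.coeff j, ?_⟩
  have h1 : Phi k F = Polynomial.eval₂ (Polynomial.aeval (X 0 : B k)).toRingHom (X 1) F := rfl
  rw [h1, Polynomial.eval₂_eq_sum_range' _ hlt, Finset.sum_range_succ, hn1, map_one, one_mul,
    add_comm]
  rfl

end Pool.Agent.H558R2.OPC_MON
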