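import Mathlib
import Pool.Agent.H922R2.OPC.Stubs
import Pool.Agent.H558R2.OPC_MON

/-! POS: no positive values. -/

set_option autoImplicit false

open MvPolynomial

namespace Pool.Agent.H558R2.OPC_POS

open Pool.Agent.H922R2.OPC Pool.Agent.H558R2.OPC_MON

variable {k : Type} [Field k]

/-- polynomials in `t^(-n)` and `lambda` have no positive exponents -/
theorem nonpos (n : ℕ) (g : B k) (i : ℤ) (hi : 0 < i) :
    (aeval ![(tp (-(n : ℤ)) : L k), lam] g : L k).coeff i = 0 := by
  induction g using MvPolynomial.induction_on generalizing i with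
  | C a =>
    rw [MvPolynomial.aeval_C, algL, HahnSeries.coeff_single_of_ne hi.ne']
  | add p q hp hq =>
    rw [map_add, HahnSeries.coeff_add, hp i hi, hq i hi, add_zero]
  | mul_X p j hp =>
    rw [map_mul, MvPolynomial.aeval_X]
    fin_cases j
    · show ((aeval ![(tp (-(n : ℤ)) : L k), lam] p : L k) * tp (-(n : ℤ))).coeff i = 0
      have h := HahnSeries.coeff_mul_single_add
        (x := (aeval ![(tp (-(n : ℤ)) : L k), lam] p : L k)) (r := (1 : Polynomial k))
        (a := i + n) (b := -(n : ℤ))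
      rw [show i + (n : ℤ) + -(n : ℤ) = i by ring] at h
      unfold tp at *
      rw [h, hp (i + n) (by positivity), zero_mul]
    · show ((aeval ![(tp (-(n : ℤ)) : L k), lam] p : L k) * lam).coeff i = 0
      have h := HahnSeries.coeff_mul_single_add
        (x := (aeval ![(tp (-(n : ℤ)) : L k), lam] p : L k)) (r := (Polynomial.X : Polynomial k))
        (a := i) (b := 0)
      rw [add_zero] at h
      unfold lam at *
      rw [h, hp i hi, zero_mul]

theorem ge_rot (c : k) (w : ℤ) (h : L k) (hh : Ge w h) : Ge w (rot c h) := by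
  intro i hi
  show Polynomial.C (c ^ i) * h.coeff i = 0
  rw [hh i hi, mul_zero]

theorem ge_neg (w : ℤ) (h : L k) (hh : Ge w h) : Ge w (-h) := by
  intro i hi
  rw [HahnSeries.coeff_neg, hh i hi, neg_zero]

theorem ge_prod (hMUL : S_MUL) (n : ℕ) (p : ℕ → L k) (hp : ∀ i, Ge 1 (p i)) :
    Ge (n : ℤ) (∏ i ∈ Finset.range n, p i) := by
  induction n with
  | zero =>
    intro i hi
    rw [Finset.range_zero, Finset.prod_empty]
    exact HahnSeries.coeff_single_of_ne (by push_cast at hi; omega)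
  | succ n ih =>
    rw [Finset.prod_range_succ]
    push_cast
    exact (hMUL _ _ _ _ _ ih (hp n)).1

theorem rot_eq_zero (c : k) (hc : c ≠ 0) (h : L k) (h0 : rot c h = 0) : h = 0 := by
  ext i : 2
  have h1 := congrArg (fun g : L k => g.coeff i) h0
  have h2 : Polynomial.C (c ^ i) * h.coeff i = 0 := h1
  rcases mul_eq_zero.1 h2 with h3 | h3
  · exact absurd (Polynomial.C_eq_zero.1 h3) (zpow_ne_zero _ hc)
  · exact h3

theorem ev_comp (n : ℕ) (φ : L k) (f : B k) (hf : ev n φ f = lam) (g : B k) :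
    ev n φ (aeval ![X 0, f] g) = aeval ![(tp (-(n : ℤ)) : L k), lam] g := by
  have h : (ev n φ).comp (aeval ![X 0, f]) = aeval ![(tp (-(n : ℤ)) : L k), lam] := by
    refine MvPolynomial.algHom_ext fun i => ?_
    fin_cases i
    · simp [ev]
    · simpa using hf
  exact DFunLike.congr_fun h g

theorem pos (k : Type) [Field k] [IsAlgClosed k] [CharZero k] : S_POS k := by
  intro hMUL hROT hEVF hINJ hCHR n f φ ζ hOP h hh
  have hMON : S_MON k := mon k
  have hn : 0 < n := hOP.1
  have hζ : ζ ≠ 0 := hOP.2.1.ne_zero hn.ne'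
  obtain ⟨g, hg⟩ := hCHR hROT hEVF hMON n f φ ζ hOP h 0
  rw [Polynomial.coeff_zero_eq_eval_zero, Polynomial.eval_prod,
    ev_comp n φ f (hEVF n f φ ζ hOP)] at hg
  have h1 : ∀ i, Polynomial.eval 0 (Polynomial.X - Polynomial.C (rot (ζ ^ i) (ev n φ h))) =
      -rot (ζ ^ i) (ev n φ h) := by
    intro i
    rw [Polynomial.eval_sub, Polynomial.eval_X, Polynomial.eval_C, zero_sub]
  simp only [h1] at hg
  have h2 : Ge (n : ℤ) (∏ i ∈ Finset.range n, -rot (ζ ^ i) (ev n φ h)) :=
    ge_prod hMUL n _ fun i => ge_neg 1 _ (ge_rot _ 1 _ hh)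
  have h3 : ∏ i ∈ Finset.range n, -rot (ζ ^ i) (ev n φ h) = 0 := by
    ext i : 2
    rcases lt_or_ge i (n : ℤ) with hi | hi
    · exact h2 i hi
    · rw [hg]
      exact nonpos n g i (by omega)
  obtain ⟨i, _, hi⟩ := Finset.prod_eq_zero_iff.1 h3
  have h4 : ev n φ h = 0 := rot_eq_zero _ (pow_ne_zero _ hζ) _ (neg_eq_zero.1 hi)
  exact hINJ hEVF hMON n f φ ζ hOP (h4.trans (map_zero _).symm)

end Pool.Agent.H558R2.OPC_POS
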