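import Mathlib
import Pool.Agent.H922R2.OPC.Stubs
import Pool.Agent.H558R2.OPC_POS

/-! SPP: specialised elements have no positive values. -/

set_option autoImplicit false

open MvPolynomial

namespace Pool.Agent.H558R2.OPC_SPP

open Pool.Agent.H922R2.OPC Pool.Agent.H558R2.OPC_MON Pool.Agent.H558R2.OPC_POS

theorem ge_prod' (hMUL : S_MUL) (R : Type) [CommRing R] (n : ℕ) (p : ℕ → LaurentSeries R)
    (hp : ∀ i, Ge 1 (p i)) : Ge (n : ℤ) (∏ i ∈ Finset.range n, p i) := by
  induction n with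
  | zero =>
    intro i hi
    rw [Finset.range_zero, Finset.prod_empty]
    exact HahnSeries.coeff_single_of_ne (by push_cast at hi; omega)
  | succ n ih =>
    rw [Finset.prod_range_succ]
    push_cast
    exact (hMUL _ _ _ _ _ ih (hp n)).1

theorem sp_coeff {k : Type} [Field k] (μ : k) (h : L k) (i : ℤ) :
    (sp μ h).coeff i = (h.coeff i).eval μ := rfl

theorem sp_rot_coeff {k : Type} [Field k] (μ c : k) (h : L k) (i : ℤ) :
    (sp μ (rot c h)).coeff i = c ^ i * (sp μ h).coeff i := by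
  rw [sp_coeff, sp_coeff]
  show (Polynomial.C (c ^ i) * h.coeff i).eval μ = _
  rw [Polynomial.eval_mul, Polynomial.eval_C]

theorem spp (k : Type) [Field k] [IsAlgClosed k] [CharZero k] : S_SPP k := by
  intro hMUL hSPR hROT hEVF hINJ hCHR n f φ ζ hOP μ h hh
  have hMON : S_MON k := mon k
  have hn : 0 < n := hOP.1
  have hζ : ζ ≠ 0 := hOP.2.1.ne_zero hn.ne'
  obtain ⟨R, hR⟩ := hSPR μ
  obtain ⟨g, hg⟩ := hCHR hROT hEVF hMON n f φ ζ hOP h 0
  rw [Polynomial.coeff_zero_eq_eval_zero, Polynomial.eval_prod,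
    ev_comp n φ f (hEVF n f φ ζ hOP)] at hg
  have h1 : ∀ i, Polynomial.eval 0 (Polynomial.X - Polynomial.C (rot (ζ ^ i) (ev n φ h))) =
      -rot (ζ ^ i) (ev n φ h) := by
    intro i
    rw [Polynomial.eval_sub, Polynomial.eval_X, Polynomial.eval_C, zero_sub]
  simp only [h1] at hg
  have hg2 := congrArg R hg
  rw [map_prod] at hg2
  have h2 : Ge (n : ℤ) (∏ i ∈ Finset.range n, R (-rot (ζ ^ i) (ev n φ h))) := by
    refine ge_prod' hMUL k n _ fun i => ?_
    intro j hj
    rw [map_neg, hR, HahnSeries.coeff_neg, sp_rot_coeff, hh j hj, mul_zero, neg_zero]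
  have h3 : ∏ i ∈ Finset.range n, R (-rot (ζ ^ i) (ev n φ h)) = 0 := by
    ext i : 2
    rcases lt_or_ge i (n : ℤ) with hi | hi
    · exact h2 i hi
    · rw [hg2, hR, sp_coeff, nonpos n g i (by omega), Polynomial.eval_zero]
      rfl
  obtain ⟨i, _, hi⟩ := Finset.prod_eq_zero_iff.1 h3
  rw [map_neg, neg_eq_zero, hR] at hi
  ext j : 2
  have h4 := congrArg (fun g : LaurentSeries k => g.coeff j) hi
  have h5 : (sp μ (rot (ζ ^ i) (ev n φ h))).coeff j = 0 := h4
  rw [sp_rot_coeff] at h5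
  rcases mul_eq_zero.1 h5 with h6 | h6
  · exact absurd h6 (zpow_ne_zero _ (pow_ne_zero _ hζ))
  · exact h6

end Pool.Agent.H558R2.OPC_SPP
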