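import Pool.Agent.H558R2.Act
import Pool.Agent.H558R2.Halving

set_option autoImplicit false

/-!
# Straight-line programs and their embedding in computation trees
-/

namespace Pool.Agent.H558R2

/-- Functions of the input. -/
abbrev Fn (κ : Type) : Type := (κ → ℝ) → ℝ

variable {κ : Type}

/-- A function is available if it is an input, a constant `0`, `1` or has been computed. -/
def Av (G : List (Fn κ)) (f : Fn κ) : Prop :=
  (∃ k, f = fun x => x k) ∨ (f = fun _ => 0) ∨ (f = fun _ => 1) ∨ f ∈ G

lemma Av.operand {G : List (Fn κ)} {f : Fn κ} (h : Av G f) :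
    ∃ u : Operand κ, ∀ x, u.value x (G.map fun g => g x) = some (f x) := by
  rcases h with ⟨k, rfl⟩ | rfl | rfl | h
  · exact ⟨.input k, fun x => rfl⟩
  · exact ⟨.zero, fun x => rfl⟩
  · exact ⟨.one, fun x => rfl⟩
  · obtain ⟨j, hj, hj'⟩ := List.mem_iff_getElem.1 h
    refine ⟨.result j, fun x => ?_⟩
    simp [Operand.value, List.getElem?_map, List.getElem?_eq_getElem hj, hj']

/-- `Reach P G c G'`: starting with the computed functions `G`, after `c` arithmetic operations
the computed functions are `G'`; all new functions satisfy `P`. -/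
inductive Reach (P : Fn κ → Prop) : List (Fn κ) → ℕ → List (Fn κ) → Prop
  | refl (G : List (Fn κ)) : Reach P G 0 G
  | step {G G' : List (Fn κ)} {c : ℕ} (o : Op) (f g : Fn κ) : Reach P G c G' → Av G' f → Av G' g →
      (o = .div → ∀ x, g x ≠ 0) → P (fun x => o.eval (f x) (g x)) →
      Reach P G (c + 1) (G' ++ [fun x => o.eval (f x) (g x)])

lemma Reach.trans {P : Fn κ → Prop} {G G' G'' : List (Fn κ)} {c c' : ℕ} (h : Reach P G c G')
    (h' : Reach P G' c' G'') : Reach P G (c + c') G'' := by
  induction h' with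
  | refl => exact h
  | step o f g _ hf hg hd hP ih => exact Reach.step o f g ih hf hg hd hP

lemma Reach.av {P : Fn κ → Prop} {G G' : List (Fn κ)} {c : ℕ} (h : Reach P G c G') {f : Fn κ}
    (hf : Av G f) : Av G' f := by
  induction h with
  | refl => exact hf
  | step o f g _ _ _ _ _ ih =>
    rcases ih with h | h | h | h
    · exact Or.inl h
    · exact Or.inr (Or.inl h)
    · exact Or.inr (Or.inr (Or.inl h))
    · exact Or.inr (Or.inr (Or.inr (by simp [h])))

lemma Reach.all {P : Fn κ → Prop} {G G' : List (Fn κ)} {c : ℕ} (h : Reach P G c G')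
    (hG : ∀ f ∈ G, P f) : ∀ f ∈ G', P f := by
  induction h with
  | refl => exact hG
  | step o f g _ _ _ _ hP ih =>
    intro f' hf'
    rcases List.mem_append.1 hf' with h | h
    · exact ih f' h
    · rw [List.mem_singleton.1 h]
      exact hP

/-- Straight-line code can be put in front of a tree. -/
lemma Reach.tree {P : Fn κ → Prop} {G G' : List (Fn κ)} {c : ℕ} (h : Reach P G c G')
    (t : CompTree κ) : ∃ t' : CompTree κ, ∀ x, t'.run x (G.map fun g => g x) =
      (t.run x (G'.map fun g => g x)).map fun r => (r.1, r.2.1, r.2.2 + c) := by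
  induction h generalizing t with
  | refl =>
    exact ⟨t, fun x => by simp⟩
  | step o f g hr hf hg hd hP ih =>
    obtain ⟨u, hu⟩ := hf.operand
    obtain ⟨v, hv⟩ := hg.operand
    obtain ⟨t', ht'⟩ := ih (.arith o u v t)
    refine ⟨t', fun x => ?_⟩
    rw [ht', CompTree.run, hu, hv]
    have hne : ¬ (o = Op.div ∧ g x = 0) := fun h => hd h.1 x h.2
    simp only [hne, if_false, Option.map_map, List.map_append, List.map_cons, List.map_nil]
    congr 1
    ext1 r
    simp only [Function.comp]
    congr 2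
    omega

/-- `Der P K c S`: whenever the functions in `K` are available, those in `S` can be made
available by at most `c` arithmetic operations. -/
def Der (P : Fn κ → Prop) (K : Set (Fn κ)) (c : ℕ) (S : Set (Fn κ)) : Prop :=
  ∀ G : List (Fn κ), (∀ f ∈ K, Av G f) → ∃ G' c', c' ≤ c ∧ Reach P G c' G' ∧ ∀ f ∈ S, Av G' f

variable {P : Fn κ → Prop}

lemma Der.base {K : Set (Fn κ)} {S : Set (Fn κ)} (h : ∀ f ∈ S, ∀ G, (∀ g ∈ K, Av G g) → Av G f) :
    Der P K 0 S :=
  fun G hG => ⟨G, 0, le_rfl, Reach.refl G, fun f hf => h f hf G hG⟩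

lemma Der.mono {K K' : Set (Fn κ)} {c c' : ℕ} {S S' : Set (Fn κ)} (h : Der P K c S)
    (hK : K ⊆ K') (hc : c ≤ c') (hS : S' ⊆ S) : Der P K' c' S' := by
  intro G hG
  obtain ⟨G', d, hd, hr, hf⟩ := h G (fun f hf => hG f (hK hf))
  exact ⟨G', d, hd.trans hc, hr, fun f hf' => hf f (hS hf')⟩

lemma Der.trans {K : Set (Fn κ)} {c c' : ℕ} {S S' : Set (Fn κ)} (h : Der P K c S)
    (h' : Der P (K ∪ S) c' S') : Der P K (c + c') (S ∪ S') := by
  intro G hG
  obtain ⟨G1, d1, hd1, hr1, hf1⟩ := h G hG
  obtain ⟨G2, d2, hd2, hr2, hf2⟩ := h' G1 (by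
    rintro f (hf | hf)
    · exact hr1.av (hG f hf)
    · exact hf1 f hf)
  refine ⟨G2, d1 + d2, by omega, hr1.trans hr2, ?_⟩
  rintro f (hf | hf)
  · exact hr2.av (hf1 f hf)
  · exact hf2 f hf

lemma Der.op {K : Set (Fn κ)} (o : Op) (f g : Fn κ) (hf : ∀ G, (∀ g ∈ K, Av G g) → Av G f)
    (hg : ∀ G, (∀ g ∈ K, Av G g) → Av G g) (hd : o = .div → ∀ x, g x ≠ 0)
    (hP : P (fun x => o.eval (f x) (g x))) : Der P K 1 {fun x => o.eval (f x) (g x)} := by
  intro G hG
  refine ⟨G ++ [fun x => o.eval (f x) (g x)], 1, le_rfl,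
    Reach.step o f g (Reach.refl G) (hf G hG) (hg G hG) hd hP, ?_⟩
  intro f' hf'
  rw [Set.mem_singleton_iff.1 hf']
  exact Or.inr (Or.inr (Or.inr (by simp)))

lemma Der.iUnion {ι : Type*} (s : Finset ι) {K : Set (Fn κ)} {c : ℕ} {S : ι → Set (Fn κ)}
    (h : ∀ i ∈ s, Der P K c (S i)) : Der P K (s.card * c) (⋃ i ∈ s, S i) := by
  classical
  induction s using Finset.induction_on with
  | empty =>
    simp only [Finset.card_empty, zero_mul, Finset.notMem_empty, Set.iUnion_of_empty,
      Set.iUnion_empty]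
    exact Der.base (by simp)
  | insert a s ha ih =>
    have h1 := ih (fun i hi => h i (Finset.mem_insert_of_mem hi))
    have h2 := h a (Finset.mem_insert_self a s)
    have h3 := h1.trans (h2.mono Set.subset_union_left le_rfl subset_rfl)
    refine h3.mono subset_rfl ?_ ?_
    · rw [Finset.card_insert_of_notMem ha]
      ring_nf
      exact le_rfl
    · intro f hf
      simp only [Finset.mem_insert, Set.iUnion_iUnion_eq_or_left, Set.mem_union] at hf
      rcases hf with hf | hf
      · exact Or.inr hf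
      · exact Or.inl hf

/-- sums -/
lemma Der.sum {ι : Type*} (s : Finset ι) {K : Set (Fn κ)} (f : ι → Fn κ)
    (hf : ∀ i ∈ s, f i ∈ K) (hP : ∀ t ⊆ s, P (fun x => ∑ i ∈ t, f i x)) :
    Der P K s.card {fun x => ∑ i ∈ s, f i x} := by
  classical
  induction s using Finset.induction_on with
  | empty =>
    refine Der.base ?_
    intro g hg G _
    rw [Set.mem_singleton_iff.1 hg]
    right; left
    ext x; simp
  | insert a s ha ih =>
    have h1 := ih (fun i hi => hf i (Finset.mem_insert_of_mem hi))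
      (fun t ht => hP t (ht.trans (Finset.subset_insert a s)))
    have e : (fun x => ∑ i ∈ insert a s, f i x) =
        (fun x => Op.add.eval (f a x) (∑ i ∈ s, f i x)) := by
      ext x
      rw [Finset.sum_insert ha]
      rfl
    have h2 : Der P (K ∪ {fun x => ∑ i ∈ s, f i x}) 1 {fun x => ∑ i ∈ insert a s, f i x} := by
      rw [e]
      refine Der.op Op.add (f a) (fun x => ∑ i ∈ s, f i x) ?_ ?_ (by simp) ?_
      · intro G hG
        exact hG _ (Or.inl (hf a (Finset.mem_insert_self a s)))
      · intro G hG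
        exact hG _ (Or.inr rfl)
      · rw [← e]
        exact hP _ subset_rfl
    refine (h1.trans h2).mono subset_rfl ?_ Set.subset_union_right
    rw [Finset.card_insert_of_notMem ha]

/-- scalar products -/
lemma Der.dot {ι : Type*} (s : Finset ι) {K : Set (Fn κ)} (f g : ι → Fn κ)
    (hf : ∀ i ∈ s, ∀ G, (∀ h ∈ K, Av G h) → Av G (f i)) (hg : ∀ i ∈ s, g i ∈ K)
    (hP1 : ∀ i ∈ s, P (fun x => f i x * g i x))
    (hP : ∀ t ⊆ s, P (fun x => ∑ i ∈ t, f i x * g i x)) :
    Der P K (2 * s.card) {fun x => ∑ i ∈ s, f i x * g i x} := by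
  have h1 : Der P K (s.card * 1) (⋃ i ∈ s, {fun x => f i x * g i x}) := by
    apply Der.iUnion
    intro i hi
    exact Der.op Op.mul (f i) (g i) (hf i hi) (fun G hG => hG _ (hg i hi)) (by simp) (hP1 i hi)
  have h2 : Der P (K ∪ ⋃ i ∈ s, {fun x => f i x * g i x}) s.card
      {fun x => ∑ i ∈ s, f i x * g i x} := by
    apply Der.sum s (fun i => fun x => f i x * g i x)
    · intro i hi
      right
      simp only [Set.mem_iUnion]
      exact ⟨i, hi, rfl⟩
    · exact hP
  refine (h1.trans h2).mono subset_rfl (by omega) Set.subset_union_right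

/-- A query tree whose queries can be evaluated by straight-line code becomes a computation
tree. -/
theorem QT.toTree {Q : Type} (f : Q → Fn κ) (c : ℕ)
    (hf : ∀ q, Der P ∅ c {f q}) (T : QT Q) :
    ∀ G : List (Fn κ), (∀ g ∈ G, P g) → ∃ T' : CompTree κ, ∀ x, ∃ ans nums steps,
      T'.run x (G.map fun g => g x) = some (ans, nums, steps) ∧
      ans = T.eval (fun q => SignType.sign (f q x)) ∧ steps ≤ T.depth * (c + 1) ∧
      ∀ v ∈ nums, ∃ g, P g ∧ v = g x := by
  induction T with
  | leaf b =>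
    intro G hG
    refine ⟨.answer b, fun x => ⟨b, G.map fun g => g x, 0, rfl, rfl, by simp, ?_⟩⟩
    intro v hv
    obtain ⟨g, hg, rfl⟩ := List.mem_map.1 hv
    exact ⟨g, hG g hg, rfl⟩
  | node q tn tz tp ihn ihz ihp =>
    intro G hG
    obtain ⟨G', c', hc', hr, hav⟩ := hf q G (by simp)
    have hG' := hr.all hG
    obtain ⟨Tn, hn⟩ := ihn G' hG'
    obtain ⟨Tz, hz⟩ := ihz G' hG'
    obtain ⟨Tp, hp⟩ := ihp G' hG'
    obtain ⟨u, hu⟩ := (hav (f q) rfl).operand
    obtain ⟨T', hT'⟩ := hr.tree (.compare u .zero Tn Tz Tp)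
    refine ⟨T', fun x => ?_⟩
    have hd : (QT.node q tn tz tp).depth = 1 + max (max tn.depth tz.depth) tp.depth := rfl
    have m1 : tn.depth ≤ max (max tn.depth tz.depth) tp.depth :=
      (le_max_left _ _).trans (le_max_left _ _)
    have m2 : tz.depth ≤ max (max tn.depth tz.depth) tp.depth :=
      (le_max_right _ _).trans (le_max_left _ _)
    have m3 : tp.depth ≤ max (max tn.depth tz.depth) tp.depth := le_max_right _ _
    have hrun : T'.run x (G.map fun g => g x) =
        ((if f q x < 0 then Tn.run x (G'.map fun g => g x) else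
          if f q x = 0 then Tz.run x (G'.map fun g => g x) else
            Tp.run x (G'.map fun g => g x)).map fun r => (r.1, r.2.1, r.2.2 + 1)).map
          fun r => (r.1, r.2.1, r.2.2 + c') := by
      rw [hT', CompTree.run, hu]
      rfl
    have fin : ∀ (t : QT Q) (d : ℕ) (ans : Bool) (nums : List ℝ) (steps : ℕ),
        t.depth ≤ d → steps ≤ t.depth * (c + 1) → steps + 1 + c' ≤ (1 + d) * (c + 1) := by
      intro t d ans nums steps h1 h2
      have : t.depth * (c + 1) ≤ d * (c + 1) := Nat.mul_le_mul_right _ h1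
      have e : (1 + d) * (c + 1) = d * (c + 1) + c + 1 := by ring
      rw [e]
      omega
    rcases lt_trichotomy (f q x) 0 with h | h | h
    · obtain ⟨ans, nums, steps, h1, h2, h3, h4⟩ := hn x
      refine ⟨ans, nums, steps + 1 + c', ?_, ?_, ?_, h4⟩
      · rw [hrun, if_pos h, h1, Option.map_some, Option.map_some]
      · rw [h2, QT.eval, sign_neg h]
      · rw [hd]; exact fin tn _ ans nums steps m1 h3
    · obtain ⟨ans, nums, steps, h1, h2, h3, h4⟩ := hz x
      refine ⟨ans, nums, steps + 1 + c', ?_, ?_, ?_, h4⟩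
      · rw [hrun, if_neg (by rw [h]; exact lt_irrefl _), if_pos h, h1, Option.map_some,
          Option.map_some]
      · rw [h2, QT.eval, h, sign_zero]
      · rw [hd]; exact fin tz _ ans nums steps m2 h3
    · obtain ⟨ans, nums, steps, h1, h2, h3, h4⟩ := hp x
      refine ⟨ans, nums, steps + 1 + c', ?_, ?_, ?_, h4⟩
      · rw [hrun, if_neg (not_lt.2 h.le), if_neg h.ne', h1, Option.map_some, Option.map_some]
      · rw [h2, QT.eval, sign_pos h]
      · rw [hd]; exact fin tp _ ans nums steps m3 h3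

end Pool.Agent.H558R2
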